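import Pool.Agent.Helper909_ly.Persist

/-!
Exponential sums over finite sets of integer valued configurations, tilts and their closure.
-/

namespace Pool.Agent.Helper909_ly

open Finset Filter Topology

variable {V : Type*} [Fintype V]

/-- the exponential sum -/
noncomputable def N (H : Finset (V → ℤ)) (q : (V → ℤ) → ℝ) (z : V → ℂ) : ℂ :=
  ∑ h ∈ H, (q h : ℂ) * Complex.exp (∑ v, z v * (h v : ℂ))

/-- positive multiples of real exponential tilts of a weight -/
def Cone (p : (V → ℤ) → ℝ) : Set ((V → ℤ) → ℝ) :=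
  {q | ∃ c : ℝ, 0 < c ∧ ∃ x : V → ℝ, q = fun h => c * p h * Real.exp (∑ v, x v * (h v : ℝ))}

lemma self_mem_Cone (p : (V → ℤ) → ℝ) : p ∈ Cone p :=
  ⟨1, one_pos, 0, by funext h; simp⟩

lemma continuous_N (H : Finset (V → ℤ)) :
    Continuous fun a : ((V → ℤ) → ℝ) × (V → ℂ) => N H a.1 a.2 := by
  unfold N
  fun_prop

lemma Cone_tilt {p : (V → ℤ) → ℝ} (x : V → ℝ) {q : (V → ℤ) → ℝ} (hq : q ∈ Cone p) :
    (fun h => q h * Real.exp (∑ v, x v * (h v : ℝ))) ∈ Cone p := by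
  obtain ⟨c, hc, x', rfl⟩ := hq
  refine ⟨c, hc, x' + x, ?_⟩
  funext h
  simp only [Pi.add_apply, add_mul, Finset.sum_add_distrib, Real.exp_add]
  ring

lemma Cone_smul {p : (V → ℤ) → ℝ} {c : ℝ} (hc : 0 < c) {q : (V → ℤ) → ℝ} (hq : q ∈ Cone p) :
    (fun h => c * q h) ∈ Cone p := by
  obtain ⟨c', hc', x', rfl⟩ := hq
  refine ⟨c * c', mul_pos hc hc', x', ?_⟩
  funext h
  ring

lemma CC_tilt {p : (V → ℤ) → ℝ} (x : V → ℝ) {q : (V → ℤ) → ℝ} (hq : q ∈ closure (Cone p)) :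
    (fun h => q h * Real.exp (∑ v, x v * (h v : ℝ))) ∈ closure (Cone p) := by
  refine map_mem_closure (f := fun (q : (V → ℤ) → ℝ) h => q h * Real.exp (∑ v, x v * (h v : ℝ)))
    ?_ hq (fun q hq => Cone_tilt x hq)
  fun_prop

lemma CC_smul {p : (V → ℤ) → ℝ} {c : ℝ} (hc : 0 < c) {q : (V → ℤ) → ℝ}
    (hq : q ∈ closure (Cone p)) : (fun h => c * q h) ∈ closure (Cone p) := by
  refine map_mem_closure (f := fun (q : (V → ℤ) → ℝ) h => c * q h)
    ?_ hq (fun q hq => Cone_smul hc hq)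
  fun_prop

lemma CC_nonneg {p : (V → ℤ) → ℝ} (hp : ∀ h, 0 ≤ p h) {q : (V → ℤ) → ℝ}
    (hq : q ∈ closure (Cone p)) (h : V → ℤ) : 0 ≤ q h := by
  have : closure (Cone p) ⊆ {q | 0 ≤ q h} := by
    refine closure_minimal ?_ (isClosed_le continuous_const (continuous_apply h))
    rintro _ ⟨c, hc, x, rfl⟩
    exact mul_nonneg (mul_nonneg hc.le (hp h)) (Real.exp_pos _).le
  exact this hq

lemma CC_zero {p : (V → ℤ) → ℝ} {h : V → ℤ} (hp : p h = 0) {q : (V → ℤ) → ℝ}
    (hq : q ∈ closure (Cone p)) : q h = 0 := by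
  have : closure (Cone p) ⊆ {q | q h = 0} := by
    refine closure_minimal ?_ (isClosed_eq (continuous_apply h) continuous_const)
    rintro _ ⟨c, hc, x, rfl⟩
    simp [hp]
  exact this hq

/-- a real shift of the argument is a tilt of the weight -/
lemma N_tilt (H : Finset (V → ℤ)) (q : (V → ℤ) → ℝ) (x y : V → ℝ) :
    N H q (fun v => (x v : ℂ) + (y v : ℂ) * Complex.I) =
      N H (fun h => q h * Real.exp (∑ v, x v * (h v : ℝ))) (fun v => (y v : ℂ) * Complex.I) := by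
  unfold N
  refine Finset.sum_congr rfl (fun h _ => ?_)
  push_cast
  rw [mul_assoc, ← Complex.exp_add]
  congr 2
  rw [← Finset.sum_add_distrib]
  refine Finset.sum_congr rfl (fun v _ => ?_)
  ring

lemma N_eq_tilt (H : Finset (V → ℤ)) (q : (V → ℤ) → ℝ) (z : V → ℂ) :
    N H q z =
      N H (fun h => q h * Real.exp (∑ v, (z v).re * (h v : ℝ)))
        (fun v => ((z v).im : ℂ) * Complex.I) := by
  rw [← N_tilt]
  congr 1
  funext v
  exact (Complex.re_add_im (z v)).symm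

lemma N_smul (H : Finset (V → ℤ)) (q : (V → ℤ) → ℝ) (c : ℝ) (z : V → ℂ) :
    N H (fun h => c * q h) z = c * N H q z := by
  unfold N
  rw [Finset.mul_sum]
  refine Finset.sum_congr rfl (fun h _ => ?_)
  push_cast
  ring

/-- zero-freeness of all limits of tilts, for the whole region -/
def LYs (H : Finset (V → ℤ)) (p : (V → ℤ) → ℝ) : Prop :=
  ∀ q ∈ closure (Cone p), (∃ h ∈ H, q h ≠ 0) → ∀ y : V → ℝ, ∑ v, y v = 0 →
    ∑ v, |y v| < 2 * Real.pi → N H q (fun v => (y v : ℂ) * Complex.I) ≠ 0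

variable [DecidableEq V]

/-- the difference of two unit vectors -/
def ed (a b : V) (v : V) : ℝ := (if v = a then 1 else 0) - (if v = b then 1 else 0)

lemma sum_ed (a b : V) : ∑ v, ed a b v = 0 := by
  simp [ed, Finset.sum_sub_distrib]

lemma sum_ed_mul (a b : V) (f : V → ℝ) : ∑ v, ed a b v * f v = f a - f b := by
  simp [ed, sub_mul, Finset.sum_sub_distrib]

lemma sum_ed_mulC (a b : V) (f : V → ℂ) : ∑ v, (ed a b v : ℂ) * f v = f a - f b := by
  have h : ∀ v, (ed a b v : ℂ) = (if v = a then 1 else 0) - (if v = b then 1 else 0) := by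
    intro v; unfold ed; split_ifs <;> simp
  simp [h, sub_mul, Finset.sum_sub_distrib]

lemma sum_abs_ed_le (a b : V) : ∑ v, |ed a b v| ≤ 2 := by
  calc ∑ v, |ed a b v| ≤ ∑ v, ((if v = a then (1 : ℝ) else 0) + (if v = b then 1 else 0)) := by
        refine Finset.sum_le_sum (fun v _ => ?_)
        unfold ed
        refine (abs_sub _ _).trans ?_
        gcongr <;> split_ifs <;> simp
    _ = 2 := by
        rw [Finset.sum_add_distrib]
        simp
        norm_num

/-- zero-freeness for all limits of tilts, two point version -/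
def K2s (H : Finset (V → ℤ)) (p : (V → ℤ) → ℝ) : Prop :=
  ∀ q ∈ closure (Cone p), (∃ h ∈ H, q h ≠ 0) → ∀ a b : V, a ≠ b → ∀ T : ℝ, 0 < T → T < Real.pi →
    N H q (fun v => ((T * ed a b v : ℝ) : ℂ) * Complex.I) ≠ 0

/-- two point version without the closure -/
def K2 (H : Finset (V → ℤ)) (p : (V → ℤ) → ℝ) : Prop :=
  ∀ q ∈ Cone p, ∀ a b : V, a ≠ b → ∀ T : ℝ, 0 < T → T < Real.pi →
    N H q (fun v => ((T * ed a b v : ℝ) : ℂ) * Complex.I) ≠ 0

end Pool.Agent.Helper909_ly
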