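import Pool.Agent.Helper909_ly.Limit

/-!
Height functions with steps of size one on a finite graph, with prescribed values on a set of
vertices.
-/

namespace Pool.Agent.Helper909_ly

open Finset Filter Topology Polynomial

variable {V : Type*} [Fintype V] [DecidableEq V]

/-- height functions for the relation `A` with the values of `h0` on `B` -/
def Homs (A : V → V → Prop) (B : Set V) (h0 : V → ℤ) : Set (V → ℤ) :=
  {h | (∀ u v, A u v → |h u - h v| = 1) ∧ ∀ u ∈ B, h u = h0 u}

/-- every vertex is joined to `B` -/
def Joined (A : V → V → Prop) (B : Set V) : Prop :=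
  ∀ u, ∃ v ∈ B, Relation.ReflTransGen A u v

omit [DecidableEq V] in
lemma homs_finite {A : V → V → Prop} {B : Set V} (hJ : Joined A B) (h0 : V → ℤ) :
    (Homs A B h0).Finite := by
  classical
  -- along a path of the relation values change by a bounded amount
  have key : ∀ u v, Relation.ReflTransGen A u v →
      ∃ n : ℕ, ∀ h : V → ℤ, (∀ u v, A u v → |h u - h v| = 1) → |h u - h v| ≤ n := by
    intro u v huv
    induction huv using Relation.ReflTransGen.head_induction_on with
    | refl => exact ⟨0, fun h _ => by simp⟩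
    | head hab _ ih =>
      obtain ⟨n, hn⟩ := ih
      refine ⟨n + 1, fun h hh => ?_⟩
      have h1 := hn h hh
      have h2 := hh _ _ hab
      rw [abs_le] at h1 ⊢
      rw [abs_eq (by norm_num)] at h2
      push_cast
      constructor <;> omega
  choose f hf hr using hJ
  choose n hn using fun u => key u (f u) (hr u)
  refine (Set.Finite.pi' (t := fun u => Set.Icc (h0 (f u) - n u) (h0 (f u) + n u))
    (fun u => Set.finite_Icc _ _)).subset ?_
  intro h hh u
  have h1 := hn u h hh.1
  rw [hh.2 _ (hf u)] at h1
  rw [abs_le] at h1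
  exact ⟨by omega, by omega⟩

/-- the approximating model -/
noncomputable def homModel (A : V → V → Prop) (B : Set V) (h0 : V → ℤ) (n : ℕ) :
    Model V {e : V × V // A e.1 e.2} := by
  classical
  exact
  { s := fun e => e.1.1
    t := fun e => e.1.2
    P := fun e => PF.step (if h0 e.1.2 - h0 e.1.1 = 1 then 0 else 1)
    Ω := fun v => if v ∈ B then PF.delta else PF.mass n }

/-- the limiting weight: the indicator of height functions, after `h = h0 + 2 g` -/
noncomputable def homWeight (A : V → V → Prop) (B : Set V) (h0 : V → ℤ) (g : V → ℤ) : ℝ := by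
  classical
  exact if (fun v => h0 v + 2 * g v) ∈ Homs A B h0 then 1 else 0

omit [DecidableEq V] in
open scoped Classical in
lemma homModel_p {A : V → V → Prop} {B : Set V} {h0 : V → ℤ} (hh0 : h0 ∈ Homs A B h0)
    (n : ℕ) (L : Finset {e : V × V // A e.1 e.2}) (hL : ∀ e, e ∈ L) (g : V → ℤ) :
    (homModel A B h0 n).p L g = homWeight A B h0 g *
      ∏ v, (if v ∈ B then 1 else (PF.mass n).w (g v)) := by
  classical
  have hedge : ∀ e : {e : V × V // A e.1 e.2}, (((homModel A B h0 n).P e).w
      (g ((homModel A B h0 n).t e) - g ((homModel A B h0 n).s e))) =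
      if |(h0 e.1.1 + 2 * g e.1.1) - (h0 e.1.2 + 2 * g e.1.2)| = 1 then 1 else 0 := by
    intro e
    have h1 := hh0.1 _ _ e.2
    have h2 : (homModel A B h0 n).P e = PF.step (if h0 e.1.2 - h0 e.1.1 = 1 then 0 else 1) := by
      simp only [homModel]
    have h3 : (homModel A B h0 n).t e = e.1.2 := by simp only [homModel]
    have h4 : (homModel A B h0 n).s e = e.1.1 := by simp only [homModel]
    rw [h2, h3, h4, PF.step_w]
    rw [abs_eq (by norm_num)] at h1
    simp only [abs_eq (show (0 : ℤ) ≤ 1 by norm_num)]
    rcases h1 with h1 | h1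
    · have h5 : ¬ (h0 e.1.2 - h0 e.1.1 = 1) := by omega
      rw [if_neg h5]
      congr 1
      apply propext
      constructor <;> intro h <;> omega
    · have h5 : h0 e.1.2 - h0 e.1.1 = 1 := by omega
      rw [if_pos h5]
      congr 1
      apply propext
      constructor <;> intro h <;> omega
  have hvert : ∀ v, ((homModel A B h0 n).Ω v).w (g v) =
      (if v ∈ B then (if g v = 0 then 1 else 0) else 1) *
      (if v ∈ B then 1 else (PF.mass n).w (g v)) := by
    intro v
    have h1 : (homModel A B h0 n).Ω v = if v ∈ B then PF.delta else PF.mass n := by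
      simp only [homModel]
    rw [h1]
    by_cases hv : v ∈ B
    · rw [if_pos hv, if_pos hv, if_pos hv, PF.delta_w, mul_one]
    · rw [if_neg hv, if_neg hv, if_neg hv, one_mul]
  unfold Model.p
  rw [Finset.prod_congr rfl (fun v _ => hvert v), Finset.prod_mul_distrib,
    Finset.prod_congr rfl (fun e _ => hedge e)]
  rw [mul_right_comm]
  congr 1
  unfold homWeight
  by_cases hmem : (fun v => h0 v + 2 * g v) ∈ Homs A B h0
  · rw [if_pos hmem, Finset.prod_eq_one, Finset.prod_eq_one, mul_one]
    · intro e _
      rw [if_pos (hmem.1 _ _ e.2)]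
    · intro v _
      by_cases hv : v ∈ B
      · have := hmem.2 v hv
        rw [if_pos hv, if_pos (by simp only at this; omega)]
      · rw [if_neg hv]
  · rw [if_neg hmem]
    by_cases hB : ∃ v ∈ B, g v ≠ 0
    · obtain ⟨v, hv, hv'⟩ := hB
      rw [Finset.prod_eq_zero (Finset.mem_univ v), zero_mul]
      rw [if_pos hv, if_neg hv']
    · push Not at hB
      have : ∃ u v, A u v ∧ ¬ |(h0 u + 2 * g u) - (h0 v + 2 * g v)| = 1 := by
        by_contra hcon
        push Not at hcon
        exact hmem ⟨fun u v huv => hcon u v huv, fun u hu => by simp [hB u hu]⟩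
      obtain ⟨u, v, huv, hne⟩ := this
      rw [Finset.prod_eq_zero (hL ⟨(u, v), huv⟩), mul_zero]
      rw [if_neg hne]

/-- **Zero-free region for height functions.** -/
theorem homs_LYz {A : V → V → Prop} {B : Set V} {h0 : V → ℤ}
    (hh0 : h0 ∈ Homs A B h0) (H : Finset (V → ℤ))
    (hH : ∀ g, g ∈ H ↔ (fun v => h0 v + 2 * g v) ∈ Homs A B h0) :
    LYz H (homWeight A B h0) := by
  classical
  have : Fintype {e : V × V // A e.1 e.2} := Fintype.ofFinite _
  have h0mem : (0 : V → ℤ) ∈ H := by
    rw [hH]; simpa using hh0
  have hwne : ∀ g, homWeight A B h0 g ≠ 0 ↔ g ∈ H := by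
    intro g
    rw [hH]
    unfold homWeight
    split_ifs with h <;> simp [h]
  refine LYz_limit (fun g => by unfold homWeight; split_ifs <;> norm_num)
    ⟨0, h0mem, (hwne 0).2 h0mem⟩ (pn := fun n => (homModel A B h0 n).p Finset.univ) ?_ ?_
  · rw [tendsto_pi_nhds]
    intro g
    have h1 : ∀ n, (homModel A B h0 n).p Finset.univ g = homWeight A B h0 g *
        ∏ v, (if v ∈ B then 1 else (PF.mass n).w (g v)) :=
      fun n => homModel_p hh0 n Finset.univ (fun e => Finset.mem_univ e) g
    simp only [h1]
    have h2 : Tendsto (fun n => ∏ v, (if v ∈ B then (1 : ℝ) else (PF.mass n).w (g v))) atTop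
        (𝓝 (∏ v : V, (1 : ℝ))) := by
      refine tendsto_finsetProd _ (fun v _ => ?_)
      by_cases hv : v ∈ B
      · simp only [if_pos hv]; exact tendsto_const_nhds
      · simp only [if_neg hv]; exact PF.mass_tendsto _
    have h3 := h2.const_mul (homWeight A B h0 g)
    simpa using h3
  · refine Filter.Eventually.of_forall (fun n => ?_)
    have hpeq : ∀ g, (homModel A B h0 n).p Finset.univ g = homWeight A B h0 g *
        ∏ v, (if v ∈ B then 1 else (PF.mass n).w (g v)) :=
      fun g => homModel_p hh0 n Finset.univ (fun e => Finset.mem_univ e) g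
    have hp0 : (homModel A B h0 n).p Finset.univ 0 ≠ 0 := by
      rw [hpeq]
      refine mul_ne_zero ((hwne 0).2 h0mem) ?_
      rw [Finset.prod_ne_zero_iff]
      intro v _
      split_ifs
      · exact one_ne_zero
      · have := PF.mass_w_nonneg_arg n 0 (Nat.zero_le n)
        simp only [Nat.cast_zero, Nat.sub_zero] at this
        rw [Pi.zero_apply, this, div_self]
        · exact one_ne_zero
        · exact_mod_cast (Nat.choose_pos (by omega)).ne'
    have hne : ∃ h ∈ (homModel A B h0 n).H, (homModel A B h0 n).p Finset.univ h ≠ 0 := by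
      refine ⟨0, ?_, hp0⟩
      by_contra hcon
      exact hp0 (Model.p_supp _ _ _ hcon)
    have hLY := LYz_of_LYs hne ((homModel A B h0 n).LY Finset.univ hne)
    intro z hz hz'
    rw [N_congr_supp (H2 := (homModel A B h0 n).H) ?_ (fun h hh => Model.p_supp _ _ _ hh)]
    · exact hLY z hz hz'
    · intro h hh
      rw [hpeq]
      have : homWeight A B h0 h = 0 := by
        by_contra hcon
        exact hh ((hwne h).1 hcon)
      rw [this, zero_mul]

omit [DecidableEq V] [Fintype V] in
lemma homs_parity {A : V → V → Prop} {B : Set V} {h0 h : V → ℤ} (hJ : Joined A B)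
    (hh0 : h0 ∈ Homs A B h0) (hh : h ∈ Homs A B h0) (u : V) : Even (h u - h0 u) := by
  obtain ⟨v, hv, hr⟩ := hJ u
  induction hr using Relation.ReflTransGen.head_induction_on with
  | refl => rw [hh.2 v hv, sub_self]; exact Even.zero
  | head hab _ ih =>
    have h1 := hh.1 _ _ hab
    have h2 := hh0.1 _ _ hab
    rw [abs_eq (by norm_num)] at h1 h2
    rw [Int.even_iff] at ih ⊢
    omega

open scoped Classical in
/-- **Lee-Yang theorem for height functions** -/
theorem homs_LeeYang {A : V → V → Prop} {B : Set V} {h0 : V → ℤ} (hJ : Joined A B)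
    (hh0 : h0 ∈ Homs A B h0) (z : V → ℂ)
    (hP : ∑ v, (if v ∈ B then 0 else max (z v).im 0) < Real.pi / 2)
    (hM : ∑ v, (if v ∈ B then 0 else max (-(z v).im) 0) < Real.pi / 2) :
    ∑ h ∈ (homs_finite hJ h0).toFinset, Complex.exp (∑ v, z v * (h v : ℂ)) ≠ 0 := by
  rcases isEmpty_or_nonempty V with hV | ⟨⟨v0⟩⟩
  · have : (homs_finite hJ h0).toFinset = {h0} := by
      ext h
      rw [Set.Finite.mem_toFinset, Finset.mem_singleton]
      constructor
      · intro _; funext v; exact (hV.false v).elim
      · rintro rfl; exact hh0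
    rw [this, Finset.sum_singleton]
    exact Complex.exp_ne_zero _
  obtain ⟨r, hr, -⟩ := hJ v0
  -- the finite set of differences
  have hinj : Function.Injective (fun (g : V → ℤ) (v : V) => h0 v + 2 * g v) := by
    intro g g' hg
    funext v
    have := congrFun hg v
    simp only at this
    omega
  have hfin : {g : V → ℤ | (fun v => h0 v + 2 * g v) ∈ Homs A B h0}.Finite :=
    (homs_finite hJ h0).preimage hinj.injOn
  set H : Finset (V → ℤ) := hfin.toFinset with hHdef
  have hH : ∀ g, g ∈ H ↔ (fun v => h0 v + 2 * g v) ∈ Homs A B h0 := by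
    intro g
    rw [hHdef, Set.Finite.mem_toFinset]
    rfl
  have hLY := homs_LYz hh0 H hH
  set S : ℝ := ∑ v, (if v ∈ B then 0 else 2 * (z v).im) with hS
  set z' : V → ℂ := fun v => if v ∈ B then (if v = r then -(S : ℂ) * Complex.I else 0)
    else 2 * z v with hz'
  have him : ∀ v, (z' v).im = (if v ∈ B then 0 else 2 * (z v).im) - (if v = r then S else 0) := by
    intro v
    simp only [hz']
    by_cases hv : v ∈ B
    · rw [if_pos hv, if_pos hv]
      split_ifs with h1
      · simp
      · simp
    · have : v ≠ r := by rintro rfl; exact hv hr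
      rw [if_neg hv, if_neg hv, if_neg this]
      simp
  have hsum : ∑ v, (z' v).im = 0 := by
    simp only [him]
    rw [Finset.sum_sub_distrib]
    simp [hS]
  have habs : ∑ v, |(z' v).im| < 2 * Real.pi := by
    have h1 : ∀ v, |(z' v).im| ≤ (if v ∈ B then 0 else 2 * |(z v).im|) +
        (if v = r then |S| else 0) := by
      intro v
      rw [him]
      refine (abs_sub _ _).trans (add_le_add ?_ ?_)
      · split_ifs
        · simp
        · rw [abs_mul]; simp
      · split_ifs <;> simp
    refine lt_of_le_of_lt (Finset.sum_le_sum (fun v _ => h1 v)) ?_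
    rw [Finset.sum_add_distrib, Finset.sum_ite_eq']
    simp only [Finset.mem_univ, if_true]
    have e1 : ∑ v, (if v ∈ B then 0 else 2 * |(z v).im|) =
        2 * (∑ v, (if v ∈ B then 0 else max (z v).im 0)) +
        2 * (∑ v, (if v ∈ B then 0 else max (-(z v).im) 0)) := by
      rw [Finset.mul_sum, Finset.mul_sum, ← Finset.sum_add_distrib]
      refine Finset.sum_congr rfl (fun v _ => ?_)
      split_ifs
      · simp
      · rcases le_total 0 (z v).im with h | h
        · rw [abs_of_nonneg h, max_eq_left h, max_eq_right (by linarith)]; ring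
        · rw [abs_of_nonpos h, max_eq_right h, max_eq_left (by linarith)]; ring
    have e2 : S = 2 * (∑ v, (if v ∈ B then 0 else max (z v).im 0)) -
        2 * (∑ v, (if v ∈ B then 0 else max (-(z v).im) 0)) := by
      rw [hS, Finset.mul_sum, Finset.mul_sum, ← Finset.sum_sub_distrib]
      refine Finset.sum_congr rfl (fun v _ => ?_)
      split_ifs
      · simp
      · rcases le_total 0 (z v).im with h | h
        · rw [max_eq_left h, max_eq_right (by linarith)]; ring
        · rw [max_eq_right h, max_eq_left (by linarith)]; ring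
    rw [e1, e2]
    rcases abs_cases (2 * (∑ v, (if v ∈ B then 0 else max (z v).im 0)) -
        2 * (∑ v, (if v ∈ B then 0 else max (-(z v).im) 0))) with ⟨e, _⟩ | ⟨e, _⟩ <;>
      rw [e] <;> linarith
  have hne := hLY z' hsum habs
  intro h0'
  apply hne
  have hbij : ∑ h ∈ (homs_finite hJ h0).toFinset, Complex.exp (∑ v, z v * (h v : ℂ)) =
      ∑ g ∈ H, Complex.exp (∑ v, z v * ((h0 v + 2 * g v : ℤ) : ℂ)) := by
    symm
    refine Finset.sum_nbij (fun g v => h0 v + 2 * g v) ?_ ?_ ?_ ?_
    · intro g hg
      rw [Set.Finite.mem_toFinset]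
      exact (hH g).1 hg
    · exact hinj.injOn
    · intro h hh
      rw [Finset.mem_coe, Set.Finite.mem_toFinset] at hh
      choose k hk using fun u => homs_parity hJ hh0 hh u
      refine ⟨k, ?_, ?_⟩
      · rw [Finset.mem_coe, hH]
        have : (fun v => h0 v + 2 * k v) = h := by
          funext v
          have := hk v
          omega
        rw [this]; exact hh
      · funext v
        have := hk v
        simp only
        omega
    · intro g _
      rfl
  rw [hbij] at h0'
  have hN : N H (homWeight A B h0) z' =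
      Complex.exp (-∑ v, z v * (h0 v : ℂ)) *
      ∑ g ∈ H, Complex.exp (∑ v, z v * ((h0 v + 2 * g v : ℤ) : ℂ)) := by
    unfold N
    rw [Finset.mul_sum]
    refine Finset.sum_congr rfl (fun g hg => ?_)
    have hg' := (hH g).1 hg
    have hw : homWeight A B h0 g = 1 := by
      unfold homWeight; rw [if_pos hg']
    rw [hw, Complex.ofReal_one, one_mul, ← Complex.exp_add]
    congr 1
    rw [← Finset.sum_neg_distrib, ← Finset.sum_add_distrib]
    refine Finset.sum_congr rfl (fun v _ => ?_)
    by_cases hv : v ∈ B
    · have h3 := hg'.2 v hv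
      have h4 : g v = 0 := by simp only at h3; omega
      rw [h4]
      push_cast
      ring
    · simp only [hz', if_neg hv]
      push_cast
      ring
  rw [hN, h0', mul_zero]

end Pool.Agent.Helper909_ly
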