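import Pool.Agent.Helper909_ly.Main

/-!
Passing to limits of weights, and broad vertex weights.
-/

namespace Pool.Agent.Helper909_ly

open Finset Filter Topology Polynomial

variable {V : Type*} [Fintype V]

/-- the zero-free region, for one weight -/
def LYz (H : Finset (V → ℤ)) (p : (V → ℤ) → ℝ) : Prop :=
  ∀ z : V → ℂ, ∑ v, (z v).im = 0 → ∑ v, |(z v).im| < 2 * Real.pi → N H p z ≠ 0

lemma LYz_of_LYs {H : Finset (V → ℤ)} {p : (V → ℤ) → ℝ} (hne : ∃ h ∈ H, p h ≠ 0)
    (h : LYs H p) : LYz H p := by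
  intro z hz hz' h0
  rw [N_eq_tilt] at h0
  refine h _ (subset_closure (Cone_tilt (fun v => (z v).re) (self_mem_Cone p))) ?_
    (fun v => (z v).im) hz hz' h0
  obtain ⟨k, hk, hk'⟩ := hne
  exact ⟨k, hk, mul_ne_zero hk' (Real.exp_pos _).ne'⟩

lemma N_congr_supp {H1 H2 : Finset (V → ℤ)} {p : (V → ℤ) → ℝ} (h1 : ∀ h, h ∉ H1 → p h = 0)
    (h2 : ∀ h, h ∉ H2 → p h = 0) (z : V → ℂ) : N H1 p z = N H2 p z := by
  classical
  unfold N
  rw [← Finset.sum_subset (Finset.inter_subset_left (s₁ := H1) (s₂ := H2)),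
    ← Finset.sum_subset (Finset.inter_subset_right (s₁ := H1) (s₂ := H2))]
  · intro h _ hh
    have : h ∉ H1 ∨ h ∉ H2 := by
      rw [Finset.mem_inter, not_and_or] at hh; exact hh
    rcases this with h3 | h3
    · rw [h1 h h3]; simp
    · rw [h2 h h3]; simp
  · intro h _ hh
    have : h ∉ H1 ∨ h ∉ H2 := by
      rw [Finset.mem_inter, not_and_or] at hh; exact hh
    rcases this with h3 | h3
    · rw [h1 h h3]; simp
    · rw [h2 h h3]; simp

/-- limits of weights keep the zero-free region -/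
theorem LYz_limit {H : Finset (V → ℤ)} {p : (V → ℤ) → ℝ} (hp : ∀ h, 0 ≤ p h)
    (hne : ∃ h ∈ H, p h ≠ 0) {pn : ℕ → (V → ℤ) → ℝ} (hlim : Tendsto pn atTop (𝓝 p))
    (hLY : ∀ᶠ n in atTop, LYz H (pn n)) : LYz H p := by
  intro z hz hz' h0
  set G : ((V → ℤ) → ℝ) → ℂ → ℂ := fun q s =>
    N H q (fun v => ((z v).re : ℂ) + s * (((z v).im : ℂ) * Complex.I)) with hG
  have hcont : Continuous fun p : ((V → ℤ) → ℝ) × ℂ => G p.1 p.2 := by
    have h1 : Continuous fun p : ((V → ℤ) → ℝ) × ℂ =>
        (p.1, fun v : V => ((z v).re : ℂ) + p.2 * (((z v).im : ℂ) * Complex.I)) := by fun_prop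
    exact (continuous_N H).comp h1
  have hd : ∀ q, Differentiable ℂ (G q) := by
    intro q
    simp only [hG]
    unfold N
    fun_prop
  have hzero : G p 1 = 0 := by
    refine Eq.trans ?_ h0
    have : (fun v => ((z v).re : ℂ) + 1 * (((z v).im : ℂ) * Complex.I)) = z := by
      funext v
      rw [one_mul]; exact Complex.re_add_im (z v)
    simp only [hG]
    rw [this]
  have hnz : ∃ s, G p s ≠ 0 := by
    refine ⟨0, ?_⟩
    have : G p 0 = ((∑ h ∈ H, p h * Real.exp (∑ v, (z v).re * (h v : ℝ)) : ℝ) : ℂ) := by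
      simp only [hG, N, zero_mul, add_zero]
      push_cast
      rfl
    rw [this]
    norm_cast
    obtain ⟨h, hh, hh'⟩ := hne
    apply ne_of_gt
    exact Finset.sum_pos' (fun h _ => mul_nonneg (hp h) (Real.exp_pos _).le)
      ⟨h, hh, mul_pos (lt_of_le_of_ne (hp h) (Ne.symm hh')) (Real.exp_pos _)⟩
  obtain ⟨ρ, hρ0, hρ⟩ : ∃ ρ : ℝ, 0 < ρ ∧ (1 + ρ) * ∑ v, |(z v).im| < 2 * Real.pi := by
    have hS : 0 ≤ ∑ v, |(z v).im| := Finset.sum_nonneg (fun _ _ => abs_nonneg _)
    refine ⟨(2 * Real.pi - ∑ v, |(z v).im|) / (2 * (∑ v, |(z v).im| + 1)), by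
      apply div_pos <;> linarith, ?_⟩
    have h1 : (2 * Real.pi - ∑ v, |(z v).im|) / (2 * (∑ v, |(z v).im| + 1)) *
        ∑ v, |(z v).im| ≤ (2 * Real.pi - ∑ v, |(z v).im|) / 2 := by
      rw [div_mul_eq_mul_div, div_le_div_iff₀ (by linarith) (by norm_num)]
      nlinarith
    nlinarith
  have hev := persist hcont hd hzero hnz hρ0
  obtain ⟨n, ⟨s, hs, hs0⟩, hn⟩ := ((hlim.eventually hev).and hLY).exists
  rw [Metric.mem_closedBall, Complex.dist_eq] at hs
  have hre : |s.re| ≤ 1 + ρ := by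
    have h1 := (Complex.abs_re_le_norm (s - 1)).trans hs
    simp only [Complex.sub_re, Complex.one_re] at h1
    rw [abs_le] at h1 ⊢
    constructor <;> linarith
  have him : ∀ v, (((z v).re : ℂ) + s * (((z v).im : ℂ) * Complex.I)).im = s.re * (z v).im := by
    intro v
    simp [Complex.add_im, Complex.mul_im]
  refine hn (fun v => ((z v).re : ℂ) + s * (((z v).im : ℂ) * Complex.I)) ?_ ?_ hs0
  · simp only [him]
    rw [← Finset.mul_sum, hz, mul_zero]
  · simp only [him, abs_mul]
    rw [← Finset.mul_sum]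
    refine lt_of_le_of_lt ?_ hρ
    exact mul_le_mul_of_nonneg_right hre (Finset.sum_nonneg (fun _ _ => abs_nonneg _))

/-- the point mass at `0` -/
noncomputable def PF.delta : PF where
  R := 1
  d := 0
  nonneg n := by rw [coeff_one]; split_ifs <;> simp
  ne := one_ne_zero
  roots z hz := by simp [IsRoot.def] at hz

lemma PF.delta_w (k : ℤ) : PF.delta.w k = if k = 0 then 1 else 0 := by
  unfold PF.w PF.delta
  simp only [coeff_one]
  split_ifs <;> first | rfl | omega

/-- two adjacent values -/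
noncomputable def PF.step (d : ℤ) : PF where
  R := 1 + X
  d := d
  nonneg n := by
    rw [coeff_add, coeff_one, coeff_X]
    split_ifs <;> norm_num
  ne := by
    intro h
    have := congrArg (fun p => coeff p 0) h
    simp at this
  roots z hz := by
    rw [IsRoot.def] at hz
    simp at hz
    have : z = -1 := by linear_combination hz
    rw [this]; simp

lemma PF.step_w (d k : ℤ) : (PF.step d).w k = if k = d ∨ k = d - 1 then 1 else 0 := by
  unfold PF.w PF.step
  simp only [coeff_add, coeff_one, coeff_X]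
  by_cases h1 : k ≤ d
  · rw [if_pos h1]
    by_cases h2 : k = d
    · subst h2; simp
    · by_cases h3 : k = d - 1
      · subst h3; simp
      · rw [if_neg (by omega), if_neg (by omega), if_neg (by omega), add_zero]
  · rw [if_neg h1, if_neg (by omega)]

/-- binomial weights, normalised at `0` -/
noncomputable def PF.mass (n : ℕ) : PF where
  R := C (((2 * n).choose n : ℝ)⁻¹) * (1 + X) ^ (2 * n)
  d := n
  nonneg k := by
    rw [coeff_C_mul, add_comm 1 X, coeff_X_add_one_pow]
    positivity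
  ne := by
    refine mul_ne_zero ?_ (pow_ne_zero _ ?_)
    · rw [Ne, C_eq_zero, inv_eq_zero]
      exact_mod_cast (Nat.choose_pos (by omega)).ne'
    · intro h
      have := congrArg (fun p => coeff p 0) h
      simp at this
  roots z hz := by
    rw [IsRoot.def] at hz
    simp only [Polynomial.map_mul, map_C, Polynomial.map_pow, Polynomial.map_add,
      Polynomial.map_one, map_X, eval_mul, eval_C, eval_pow, eval_add, eval_one, eval_X] at hz
    have h1 : ((2 * n).choose n : ℝ)⁻¹ ≠ 0 := by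
      rw [Ne, inv_eq_zero]
      exact_mod_cast (Nat.choose_pos (by omega)).ne'
    have h2 : (algebraMap ℝ ℂ) (((2 * n).choose n : ℝ)⁻¹) ≠ 0 := by
      rw [Ne, _root_.map_eq_zero]; exact h1
    have h3 := (mul_eq_zero.1 hz).resolve_left h2
    have h4 : (1 : ℂ) + z = 0 := by
      by_contra h
      exact pow_ne_zero _ h h3
    have : z = -1 := by linear_combination h4
    rw [this]; simp

lemma PF.mass_w_eq (n : ℕ) (k : ℤ) : (PF.mass n).w k = if k ≤ (n : ℤ) then
    ((2 * n).choose ((n : ℤ) - k).toNat : ℝ) / ((2 * n).choose n : ℝ) else 0 := by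
  have h : (PF.mass n).w k = if k ≤ (n : ℤ) then
    (C (((2 * n).choose n : ℝ)⁻¹) * (1 + X) ^ (2 * n)).coeff ((n : ℤ) - k).toNat else 0 := rfl
  rw [h, coeff_C_mul, add_comm 1 X, coeff_X_add_one_pow, inv_mul_eq_div]

lemma PF.mass_w_nonneg_arg (n k : ℕ) (hk : k ≤ n) :
    (PF.mass n).w k = ((2 * n).choose (n - k) : ℝ) / ((2 * n).choose n : ℝ) := by
  rw [PF.mass_w_eq, if_pos (by exact_mod_cast hk)]
  have : ((n : ℤ) - (k : ℤ)).toNat = n - k := by omega
  rw [this]

lemma PF.mass_w_neg_arg (n k : ℕ) (hk : k ≤ n) :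
    (PF.mass n).w (-(k : ℤ)) = ((2 * n).choose (n - k) : ℝ) / ((2 * n).choose n : ℝ) := by
  rw [PF.mass_w_eq, if_pos (by omega)]
  have h1 : ((n : ℤ) - (-(k : ℤ))).toNat = n + k := by omega
  have h2 : (2 * n).choose (n + k) = (2 * n).choose (n - k) := by
    rw [← Nat.choose_symm (show n - k ≤ 2 * n by omega)]
    congr 1; omega
  rw [h1, h2]

lemma choose_ratio_tendsto (k : ℕ) :
    Tendsto (fun n : ℕ => ((2 * n).choose (n - k) : ℝ) / ((2 * n).choose n : ℝ)) atTop (𝓝 1) := by
  induction k with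
  | zero =>
    refine tendsto_const_nhds.congr (fun n => ?_)
    rw [Nat.sub_zero, div_self]
    exact_mod_cast (Nat.choose_pos (by omega)).ne'
  | succ k ih =>
    have h1 : Tendsto (fun n : ℕ => ((n : ℝ) - k) / ((n : ℝ) + k + 1)) atTop (𝓝 1) := by
      have h2 : Tendsto (fun n : ℕ => 1 - (2 * (k : ℝ) + 1) / ((n : ℝ) + k + 1)) atTop
          (𝓝 (1 - 0)) := by
        refine tendsto_const_nhds.sub ?_
        refine Tendsto.div_atTop tendsto_const_nhds ?_
        have := tendsto_natCast_atTop_atTop (R := ℝ)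
        have h3 := tendsto_atTop_add_const_right atTop ((k : ℝ) + 1) this
        refine h3.congr (fun n => by ring)
      rw [sub_zero] at h2
      refine h2.congr (fun n => ?_)
      have : (0 : ℝ) < (n : ℝ) + k + 1 := by positivity
      field_simp
      ring
    have h4 := ih.mul h1
    rw [mul_one] at h4
    refine h4.congr' ?_
    filter_upwards [eventually_ge_atTop (k + 1)] with n hn
    have h5 := Nat.choose_succ_right_eq (2 * n) (n - (k + 1))
    have h6 : n - (k + 1) + 1 = n - k := by omega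
    have h7 : 2 * n - (n - (k + 1)) = n + k + 1 := by omega
    rw [h6, h7] at h5
    have h8 : ((2 * n).choose (n - k) : ℝ) * ((n : ℝ) - k) =
        ((2 * n).choose (n - (k + 1)) : ℝ) * ((n : ℝ) + k + 1) := by
      have : ((n - k : ℕ) : ℝ) = (n : ℝ) - k := by
        rw [Nat.cast_sub (by omega)]
      rw [← this]
      exact_mod_cast h5
    have h9 : (0 : ℝ) < (n : ℝ) + k + 1 := by positivity
    have h10 : ((2 * n).choose n : ℝ) ≠ 0 := by
      exact_mod_cast (Nat.choose_pos (by omega)).ne'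
    field_simp
    linarith

lemma PF.mass_tendsto (k : ℤ) : Tendsto (fun n : ℕ => (PF.mass n).w k) atTop (𝓝 1) := by
  rcases Int.eq_nat_or_neg k with ⟨m, rfl | rfl⟩
  · refine (choose_ratio_tendsto m).congr' ?_
    filter_upwards [eventually_ge_atTop m] with n hn
    exact (PF.mass_w_nonneg_arg n m hn).symm
  · refine (choose_ratio_tendsto m).congr' ?_
    filter_upwards [eventually_ge_atTop m] with n hn
    exact (PF.mass_w_neg_arg n m hn).symm

end Pool.Agent.Helper909_ly
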