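import Pool.Agent.Helper909_ly.Defs

/-!
Reduction of the multivariate statement to the two point statement.
-/

namespace Pool.Agent.Helper909_ly

open Finset Filter Topology

variable {V : Type*} [Fintype V]

lemma differentiable_N_line (H : Finset (V → ℤ)) (q : (V → ℤ) → ℝ) (z e : V → ℂ) :
    Differentiable ℂ (fun s : ℂ => N H q (fun v => z v + s * e v)) := by
  unfold N
  fun_prop

variable [DecidableEq V]

/-- from the cone to its closure -/
theorem K2s_of_K2 {H : Finset (V → ℤ)} {p : (V → ℤ) → ℝ} (hp : ∀ h, 0 ≤ p h)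
    (hK : K2 H p) : K2s H p := by
  intro q hq hne a b hab T hT0 hT h0
  -- the function of (q, s)
  set G : ((V → ℤ) → ℝ) → ℂ → ℂ := fun q s => N H q (fun v => 0 + s * (ed a b v : ℂ)) with hG
  have hcont : Continuous fun p : ((V → ℤ) → ℝ) × ℂ => G p.1 p.2 := by
    have h1 : Continuous fun p : ((V → ℤ) → ℝ) × ℂ =>
        (p.1, fun v : V => (0 : ℂ) + p.2 * (ed a b v : ℂ)) := by fun_prop
    exact (continuous_N H).comp h1
  have hd : ∀ q, Differentiable ℂ (G q) := fun q => differentiable_N_line H q _ _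
  have hz : G q ((T : ℂ) * Complex.I) = 0 := by
    refine Eq.trans ?_ h0
    have : (fun v => (0 : ℂ) + ((T : ℂ) * Complex.I) * (ed a b v : ℂ)) =
        (fun v => ((T * ed a b v : ℝ) : ℂ) * Complex.I) := by
      funext v
      push_cast
      ring
    simp only [hG]
    rw [this]
  have hnz : ∃ s, G q s ≠ 0 := by
    refine ⟨0, ?_⟩
    have : G q 0 = ((∑ h ∈ H, q h : ℝ) : ℂ) := by
      simp [hG, N]
    rw [this]
    norm_cast
    obtain ⟨h, hh, hh'⟩ := hne
    apply ne_of_gt
    exact Finset.sum_pos' (fun h _ => CC_nonneg hp hq h)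
      ⟨h, hh, lt_of_le_of_ne (CC_nonneg hp hq h) (Ne.symm hh')⟩
  set ρ : ℝ := min (T / 2) ((Real.pi - T) / 2) with hρ
  have hρ0 : 0 < ρ := lt_min (by linarith) (by linarith)
  have hev := persist hcont hd hz hnz hρ0
  obtain ⟨q', ⟨s, hs, hs0⟩, hq'mem⟩ := mem_closure_iff_nhds.1 hq _ hev
  rw [Metric.mem_closedBall, Complex.dist_eq] at hs
  have him : |s.im - T| ≤ ρ := by
    have := Complex.abs_im_le_norm (s - (T : ℂ) * Complex.I)
    simp only [Complex.sub_im, Complex.mul_im, Complex.ofReal_re, Complex.I_im, mul_one,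
      Complex.ofReal_im, Complex.I_re, mul_zero, add_zero] at this
    linarith
  rw [abs_le] at him
  have h1 : ρ ≤ T / 2 := min_le_left _ _
  have h2 : ρ ≤ (Real.pi - T) / 2 := min_le_right _ _
  refine hK _ (Cone_tilt (fun v => s.re * ed a b v) hq'mem) a b hab s.im (by linarith)
    (by linarith) ?_
  rw [← N_tilt]
  refine Eq.trans ?_ hs0
  have h3 : (fun v => (((s.re * ed a b v : ℝ)) : ℂ) + ((s.im * ed a b v : ℝ) : ℂ) * Complex.I) =
      (fun v => (0 : ℂ) + s * (ed a b v : ℂ)) := by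
    funext v
    have h4 : s = (s.re : ℂ) + (s.im : ℂ) * Complex.I := (Complex.re_add_im s).symm
    conv_rhs => rw [h4]
    push_cast
    ring
  simp only [hG]
  rw [← h3]

omit [DecidableEq V] in
/-- positive rescaling keeps the closure, so one may normalise -/
lemma normalise {H : Finset (V → ℤ)} {p : (V → ℤ) → ℝ} (hp : ∀ h, 0 ≤ p h)
    {q : (V → ℤ) → ℝ} (hq : q ∈ closure (Cone p)) (hne : ∃ h ∈ H, q h ≠ 0) :
    ∃ c : ℝ, 0 < c ∧ ∑ h ∈ H, (c * q h) = 1 := by
  obtain ⟨h, hh, hh'⟩ := hne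
  have hpos : 0 < ∑ h ∈ H, q h := Finset.sum_pos' (fun h _ => CC_nonneg hp hq h)
      ⟨h, hh, lt_of_le_of_ne (CC_nonneg hp hq h) (Ne.symm hh')⟩
  refine ⟨(∑ h ∈ H, q h)⁻¹, inv_pos.2 hpos, ?_⟩
  rw [← Finset.mul_sum, inv_mul_cancel₀ hpos.ne']

/-- the set of normalised zeros with bounded imaginary part -/
def Zer (H : Finset (V → ℤ)) (p : (V → ℤ) → ℝ) (τ : ℝ) : Set (((V → ℤ) → ℝ) × (V → ℝ)) :=
  {a | a.1 ∈ closure (Cone p) ∧ ∑ h ∈ H, a.1 h = 1 ∧ ∑ v, a.2 v = 0 ∧ ∑ v, |a.2 v| ≤ τ ∧
    N H a.1 (fun v => (a.2 v : ℂ) * Complex.I) = 0}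

omit [DecidableEq V] in
lemma isCompact_Zer {H : Finset (V → ℤ)} {p : (V → ℤ) → ℝ} (hp : ∀ h, 0 ≤ p h)
    (hs : ∀ h, h ∉ H → p h = 0) (τ : ℝ) : IsCompact (Zer H p τ) := by
  classical
  have hK : IsCompact ((Set.pi Set.univ (fun _ : V → ℤ => Set.Icc (0 : ℝ) 1)) ×ˢ
      (Set.pi Set.univ (fun _ : V => Set.Icc (-τ) τ))) :=
    (isCompact_univ_pi (fun _ => isCompact_Icc)).prod (isCompact_univ_pi (fun _ => isCompact_Icc))
  refine hK.of_isClosed_subset ?_ ?_
  · have hset : Zer H p τ = {a | a.1 ∈ closure (Cone p)} ∩ {a | ∑ h ∈ H, a.1 h = 1} ∩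
        {a | ∑ v, a.2 v = 0} ∩ {a | ∑ v, |a.2 v| ≤ τ} ∩
        {a | N H a.1 (fun v => (a.2 v : ℂ) * Complex.I) = 0} := by
      ext a
      simp only [Zer, Set.mem_ofPred_eq, Set.mem_inter_iff]
      tauto
    rw [hset]
    refine IsClosed.inter (IsClosed.inter (IsClosed.inter (IsClosed.inter ?_ ?_) ?_) ?_) ?_
    · exact isClosed_closure.preimage continuous_fst
    · exact isClosed_eq (by fun_prop) continuous_const
    · exact isClosed_eq (by fun_prop) continuous_const
    · exact isClosed_le (by fun_prop) continuous_const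
    · refine isClosed_eq ?_ continuous_const
      have h1 : Continuous fun a : ((V → ℤ) → ℝ) × (V → ℝ) =>
          (a.1, fun v : V => (a.2 v : ℂ) * Complex.I) := by fun_prop
      exact (continuous_N H).comp h1
  · rintro ⟨q, y⟩ ⟨hq, hsum, hy0, hy, -⟩
    simp only at hq hsum hy0 hy
    refine ⟨fun h _ => ?_, fun v _ => ?_⟩
    · refine ⟨CC_nonneg hp hq h, ?_⟩
      by_cases hh : h ∈ H
      · rw [← hsum]
        exact Finset.single_le_sum (f := fun h => q h) (fun h _ => CC_nonneg hp hq h) hh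
      · change q h ≤ 1
        rw [CC_zero (hs h hh) hq]; exact zero_le_one
    · have h1 : |y v| ≤ ∑ v, |y v| :=
        Finset.single_le_sum (f := fun v => |y v|) (fun v _ => abs_nonneg _) (Finset.mem_univ v)
      exact abs_le.1 (h1.trans hy)

/-- how the absolute values change along `ed a b` while the signs at `a`, `b` are kept -/
lemma abs_move {a b : V} (hab : a ≠ b) {σ : ℝ} (hσ : σ = 1 ∨ σ = -1) {y : V → ℝ} {t τ : ℝ}
    (hτ : 0 ≤ τ) (ha : 0 ≤ σ * (τ * y a + t)) (hb : 0 ≤ σ * (τ * y b - t))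
    (ha' : 0 ≤ σ * y a) (hb' : 0 ≤ σ * y b) :
    ∑ v, |τ * y v + t * ed a b v| = τ * ∑ v, |y v| := by
  have key : ∀ v, |τ * y v + t * ed a b v| = τ * |y v| + σ * t * ed a b v := by
    intro v
    by_cases hva : v = a
    · subst hva
      have h1 : ed v b v = 1 := by simp [ed, hab]
      rw [h1]
      rcases hσ with rfl | rfl
      · rw [abs_of_nonneg (by linarith), abs_of_nonneg (show 0 ≤ y v by linarith)]
        ring
      · rw [abs_of_nonpos (by linarith), abs_of_nonpos (show y v ≤ 0 by linarith)]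
        ring
    · by_cases hvb : v = b
      · subst hvb
        have h1 : ed a v v = -1 := by simp [ed, hab.symm]
        rw [h1]
        rcases hσ with rfl | rfl
        · rw [abs_of_nonneg (by linarith), abs_of_nonneg (show 0 ≤ y v by linarith)]
          ring
        · rw [abs_of_nonpos (by linarith), abs_of_nonpos (show y v ≤ 0 by linarith)]
          ring
      · have h1 : ed a b v = 0 := by simp [ed, hva, hvb]
        rw [h1, mul_zero, add_zero, mul_zero, add_zero, abs_mul, abs_of_nonneg hτ]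
  simp only [key]
  rw [Finset.sum_add_distrib, ← Finset.mul_sum, ← Finset.mul_sum, sum_ed, mul_zero, add_zero]

theorem merge {H : Finset (V → ℤ)} {p : (V → ℤ) → ℝ} (hp : ∀ h, 0 ≤ p h)
    {τ : ℝ} {q : (V → ℤ) → ℝ} {y : V → ℝ} (hmem : (q, y) ∈ Zer H p τ)
    (hmin : ∀ a ∈ Zer H p τ, ∑ v, |y v| ≤ ∑ v, |a.2 v|) {a b : V} (hab : a ≠ b) {σ : ℝ}
    (hσ : σ = 1 ∨ σ = -1) (ha : 0 < σ * y a) (hb : 0 < σ * y b) :
    (q, fun v => y v + (-(y a)) * ed a b v) ∈ Zer H p τ ∧
      ∑ v, |y v + (-(y a)) * ed a b v| = ∑ v, |y v| := by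
  obtain ⟨hq, hsum, hy0, hy, hN⟩ := hmem
  simp only at hq hsum hy0 hy hN
  have habs : ∀ x : ℝ, σ * x ≤ |x| ∧ -|x| ≤ σ * x := by
    intro x
    rcases hσ with rfl | rfl
    · exact ⟨by rw [one_mul]; exact le_abs_self x, by rw [one_mul]; exact neg_abs_le x⟩
    · refine ⟨?_, ?_⟩
      · have := neg_abs_le x; linarith
      · have := le_abs_self x; linarith
  -- the two parameter function
  set G : ℝ → ℂ → ℂ := fun τ' s => N H q (fun v => (τ' : ℂ) * ((y v : ℂ) * Complex.I) +
    s * (ed a b v : ℂ)) with hG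
  have hcont : Continuous fun p : ℝ × ℂ => G p.1 p.2 := by
    have h1 : Continuous fun p : ℝ × ℂ =>
        (q, fun v : V => (p.1 : ℂ) * ((y v : ℂ) * Complex.I) + p.2 * (ed a b v : ℂ)) := by fun_prop
    exact (continuous_N H).comp h1
  have hd : ∀ τ', Differentiable ℂ (G τ') := fun τ' => differentiable_N_line H q _ _
  have h0 : G 1 0 = 0 := by
    refine Eq.trans ?_ hN
    simp [hG]
  have hall : ∀ s, G 1 s = 0 := by
    by_contra hcon
    push Not at hcon
    set ρ : ℝ := min (σ * y a / 4) (σ * y b / 4) with hρ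
    have hρ0 : 0 < ρ := lt_min (by linarith) (by linarith)
    have hρa : ρ ≤ σ * y a / 4 := min_le_left _ _
    have hρb : ρ ≤ σ * y b / 4 := min_le_right _ _
    have hev := persist hcont hd h0 hcon hρ0
    have hev2 : ∀ᶠ τ' : ℝ in 𝓝[<] (1 : ℝ), 1 / 2 < τ' ∧ τ' < 1 ∧
        ∃ s ∈ Metric.closedBall (0 : ℂ) ρ, G τ' s = 0 := by
      have e1 : ∀ᶠ τ' : ℝ in 𝓝[<] (1 : ℝ), 1 / 2 < τ' :=
        nhdsWithin_le_nhds (lt_mem_nhds (by norm_num))
      have e2 : ∀ᶠ τ' : ℝ in 𝓝[<] (1 : ℝ), τ' < 1 := self_mem_nhdsWithin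
      have e3 := hev.filter_mono (nhdsWithin_le_nhds (s := Set.Iio (1 : ℝ)))
      filter_upwards [e1, e2, e3] with τ' h1 h2 h3 using ⟨h1, h2, h3⟩
    obtain ⟨τ', h1, h2, s, hs, hs0⟩ := hev2.exists
    rw [Metric.mem_closedBall, dist_zero_right] at hs
    have him : |s.im| ≤ ρ := (Complex.abs_im_le_norm s).trans hs
    have him1 := (habs s.im).1.trans him
    have him2 : -ρ ≤ σ * s.im := by
      have := (habs s.im).2
      linarith
    have hτa : σ * y a / 2 ≤ τ' * (σ * y a) := by nlinarith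
    have hτb : σ * y b / 2 ≤ τ' * (σ * y b) := by nlinarith
    have hsumabs : ∑ v, |τ' * y v + s.im * ed a b v| = τ' * ∑ v, |y v| := by
      refine abs_move hab hσ (by linarith) ?_ ?_ ha.le hb.le
      · have : σ * (τ' * y a + s.im) = τ' * (σ * y a) + σ * s.im := by ring
        rw [this]; linarith
      · have : σ * (τ' * y b - s.im) = τ' * (σ * y b) - σ * s.im := by ring
        rw [this]; linarith
    have hypos : 0 < ∑ v, |y v| := by
      refine Finset.sum_pos' (fun v _ => abs_nonneg _) ⟨a, Finset.mem_univ _, abs_pos.2 ?_⟩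
      rintro h; rw [h, mul_zero] at ha; exact lt_irrefl _ ha
    -- the normalised tilt
    have hqt := CC_tilt (fun v => s.re * ed a b v) hq
    have hne : ∃ h ∈ H, q h * Real.exp (∑ v, (s.re * ed a b v) * (h v : ℝ)) ≠ 0 := by
      have : ∃ h ∈ H, q h ≠ 0 := by
        apply Finset.exists_ne_zero_of_sum_ne_zero
        rw [hsum]; exact one_ne_zero
      obtain ⟨h, hh, hh'⟩ := this
      exact ⟨h, hh, mul_ne_zero hh' (Real.exp_pos _).ne'⟩
    obtain ⟨c, hc, hc1⟩ := normalise hp hqt hne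
    have hzer : ((fun h => c * (q h * Real.exp (∑ v, (s.re * ed a b v) * (h v : ℝ)))),
        (fun v => τ' * y v + s.im * ed a b v)) ∈ Zer H p τ := by
      refine ⟨CC_smul hc hqt, hc1, ?_, ?_, ?_⟩
      · simp only
        rw [Finset.sum_add_distrib, ← Finset.mul_sum, ← Finset.mul_sum, hy0, sum_ed]
        simp
      · simp only
        rw [hsumabs]
        nlinarith
      · simp only
        rw [N_smul, ← N_tilt]
        have : N H q (fun v => ((s.re * ed a b v : ℝ) : ℂ) +
            ((τ' * y v + s.im * ed a b v : ℝ) : ℂ) * Complex.I) = G τ' s := by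
          simp only [hG]
          congr 1
          funext v
          have h4 : s = (s.re : ℂ) + (s.im : ℂ) * Complex.I := (Complex.re_add_im s).symm
          conv_rhs => rw [h4]
          push_cast
          ring
        rw [this, hs0, mul_zero]
    have := hmin _ hzer
    simp only at this
    rw [hsumabs] at this
    nlinarith
  have h5 := hall (((-(y a) : ℝ) : ℂ) * Complex.I)
  have hfin : ∑ v, |y v + (-(y a)) * ed a b v| = ∑ v, |y v| := by
    have := abs_move (y := y) (t := -(y a)) (τ := 1) hab hσ zero_le_one (by simp)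
      (by
        have : σ * (1 * y b - -(y a)) = σ * y b + σ * y a := by ring
        rw [this]; linarith) ha.le hb.le
    simpa only [one_mul] using this
  refine ⟨⟨hq, hsum, ?_, ?_, ?_⟩, hfin⟩
  · simp only
    rw [Finset.sum_add_distrib, ← Finset.mul_sum, hy0, sum_ed]
    simp
  · simp only
    rw [hfin]; exact hy
  · simp only
    refine Eq.trans ?_ h5
    simp only [hG]
    congr 1
    funext v
    push_cast
    ring

/-- the two point statement implies the full statement -/
theorem LYs_of_K2s {H : Finset (V → ℤ)} {p : (V → ℤ) → ℝ} (hp : ∀ h, 0 ≤ p h)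
    (hs : ∀ h, h ∉ H → p h = 0) (hK : K2s H p) : LYs H p := by
  classical
  intro q0 hq0 hne0 y0 hy00 hy0 hN0
  set τ : ℝ := ∑ v, |y0 v| with hτ
  obtain ⟨c, hc, hc1⟩ := normalise hp hq0 hne0
  have hZne : (Zer H p τ).Nonempty := by
    refine ⟨(fun h => c * q0 h, y0), CC_smul hc hq0, hc1, hy00, le_rfl, ?_⟩
    simp only
    rw [N_smul, hN0, mul_zero]
  have hfc : Continuous fun a : ((V → ℤ) → ℝ) × (V → ℝ) => ∑ v, |a.2 v| := by fun_prop
  obtain ⟨a0, ha0, hmin0⟩ := (isCompact_Zer hp hs τ).exists_isMinOn hZne hfc.continuousOn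
  have hmin0' : ∀ a ∈ Zer H p τ, ∑ v, |a0.2 v| ≤ ∑ v, |a.2 v| := fun a ha => hmin0 ha
  have hex : ∃ n : ℕ, ∃ a ∈ Zer H p τ, ∑ v, |a.2 v| = ∑ v, |a0.2 v| ∧
      (Finset.univ.filter (fun v => a.2 v ≠ 0)).card = n := ⟨_, a0, ha0, rfl, rfl⟩
  obtain ⟨⟨q, y⟩, hmem, hT, hcard⟩ := Nat.find_spec hex
  have hleast := fun (m : ℕ) (hm : m < Nat.find hex) => Nat.find_min hex hm
  simp only at hT hcard
  have hmin : ∀ a ∈ Zer H p τ, ∑ v, |y v| ≤ ∑ v, |a.2 v| := by
    intro a ha; rw [hT]; exact hmin0' a ha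
  -- no two entries of the same sign
  have hno : ∀ a b : V, a ≠ b → ∀ σ : ℝ, (σ = 1 ∨ σ = -1) → ¬ (0 < σ * y a ∧ 0 < σ * y b) := by
    rintro a b hab σ hσ ⟨ha, hb⟩
    obtain ⟨h1, h2⟩ := merge hp hmem hmin hab hσ ha hb
    have hlt : (Finset.univ.filter (fun v => y v + (-(y a)) * ed a b v ≠ 0)).card <
        Nat.find hex := by
      rw [← hcard]
      apply Finset.card_lt_card
      rw [Finset.ssubset_iff_of_subset]
      · refine ⟨a, ?_, ?_⟩
        · simp only [Finset.mem_filter, Finset.mem_univ, true_and]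
          rintro h; rw [h, mul_zero] at ha; exact lt_irrefl _ ha
        · simp [ed, hab]
      · intro v hv
        simp only [Finset.mem_filter, Finset.mem_univ, true_and] at hv ⊢
        intro hv0
        apply hv
        have hva : v ≠ a := by
          rintro rfl; rw [hv0, mul_zero] at ha; exact lt_irrefl _ ha
        have hvb : v ≠ b := by
          rintro rfl; rw [hv0, mul_zero] at hb; exact lt_irrefl _ hb
        simp [ed, hva, hvb, hv0]
    exact hleast _ hlt ⟨_, h1, by simp only; rw [h2, hT], rfl⟩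
  obtain ⟨hq, hsum, hy0', hy', hN⟩ := hmem
  simp only at hq hsum hy0' hy' hN
  -- y is not zero
  have hyne : ∃ v, y v ≠ 0 := by
    by_contra hcon
    push Not at hcon
    have : N H q (fun v => (y v : ℂ) * Complex.I) = ((∑ h ∈ H, q h : ℝ) : ℂ) := by
      simp [N, hcon]
    rw [this, hsum] at hN
    simp at hN
  have hpos : ∃ a, 0 < y a := by
    by_contra hcon
    push Not at hcon
    obtain ⟨v, hv⟩ := hyne
    exact hv ((Finset.sum_eq_zero_iff_of_nonpos (fun v _ => hcon v)).1 hy0' v (Finset.mem_univ v))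
  have hneg : ∃ b, y b < 0 := by
    by_contra hcon
    push Not at hcon
    obtain ⟨v, hv⟩ := hyne
    exact hv ((Finset.sum_eq_zero_iff_of_nonneg (fun v _ => hcon v)).1 hy0' v (Finset.mem_univ v))
  obtain ⟨a, ha⟩ := hpos
  obtain ⟨b, hb⟩ := hneg
  have hab : a ≠ b := by rintro rfl; linarith
  have hoth : ∀ v, v ≠ a → v ≠ b → y v = 0 := by
    intro v hva hvb
    by_contra hv
    rcases lt_or_gt_of_ne hv with h | h
    · exact hno v b hvb (-1) (Or.inr rfl) ⟨by linarith, by linarith⟩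
    · exact hno v a hva 1 (Or.inl rfl) ⟨by linarith, by linarith⟩
  have hsum2 : ∑ v, y v = y a + y b := by
    rw [← Finset.sum_subset (Finset.subset_univ {a, b}), Finset.sum_pair hab]
    intro v _ hv
    simp only [Finset.mem_insert, Finset.mem_singleton, not_or] at hv
    exact hoth v hv.1 hv.2
  have hyb : y b = - y a := by linarith
  have hsum3 : ∑ v, |y v| = 2 * y a := by
    rw [← Finset.sum_subset (Finset.subset_univ {a, b}), Finset.sum_pair hab, hyb, abs_neg,
      abs_of_pos ha]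
    · ring
    · intro v _ hv
      simp only [Finset.mem_insert, Finset.mem_singleton, not_or] at hv
      rw [hoth v hv.1 hv.2, abs_zero]
  have hTpi : y a < Real.pi := by
    have := hy'
    rw [hsum3] at this
    linarith
  refine hK q hq ?_ a b hab (y a) ha hTpi ?_
  · apply Finset.exists_ne_zero_of_sum_ne_zero
    rw [hsum]; exact one_ne_zero
  · refine Eq.trans ?_ hN
    congr 1
    funext v
    congr 2
    by_cases hva : v = a
    · subst hva; simp [ed, hab]
    · by_cases hvb : v = b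
      · subst hvb; simp [ed, hva, hyb]
      · simp [ed, hva, hvb, hoth v hva hvb]

end Pool.Agent.Helper909_ly
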