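import Pool.Agent.Helper909_ly.StepA
import Pool.Agent.Helper909_ly.StepB

/-!
The zero-free region for gradient models with real rooted edge weights on a finite graph.
-/

namespace Pool.Agent.Helper909_ly

open Finset Filter Topology Polynomial

variable {V : Type*} [Fintype V] [DecidableEq V]

lemma reg_bound (a b c : V) {T θ : ℝ} (hT0 : 0 ≤ T) (hT : T < Real.pi) (h1 : -Real.pi < θ)
    (h2 : θ < Real.pi - T) : ∑ v, |T * ed a b v + θ * ed a c v| < 2 * Real.pi := by
  have key : ∀ v, |T * ed a b v + θ * ed a c v| ≤ (if v = a then |T + θ| else 0) +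
      (if v = b then T else 0) + (if v = c then |θ| else 0) := by
    intro v
    have e : T * ed a b v + θ * ed a c v = (if v = a then T + θ else 0) -
        (if v = b then T else 0) - (if v = c then θ else 0) := by
      unfold ed; split_ifs <;> ring
    rw [e]
    refine (abs_sub _ _).trans (add_le_add ((abs_sub _ _).trans (add_le_add ?_ ?_)) ?_)
    · split_ifs <;> simp
    · split_ifs <;> simp [abs_of_nonneg hT0]
    · split_ifs <;> simp
  refine lt_of_le_of_lt (Finset.sum_le_sum (fun v _ => key v)) ?_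
  rw [Finset.sum_add_distrib, Finset.sum_add_distrib]
  simp only [Finset.sum_ite_eq', Finset.mem_univ, if_true]
  rcases abs_cases (T + θ) with ⟨e1, _⟩ | ⟨e1, _⟩ <;>
  rcases abs_cases θ with ⟨e2, _⟩ | ⟨e2, _⟩ <;> rw [e1, e2] <;> linarith [Real.pi_pos]

omit [DecidableEq V] in
lemma N_conj (H : Finset (V → ℤ)) (q : (V → ℤ) → ℝ) (y : V → ℝ) :
    N H q (fun v => ((-(y v) : ℝ) : ℂ) * Complex.I) =
      (starRingEnd ℂ) (N H q (fun v => (y v : ℂ) * Complex.I)) := by
  unfold N
  rw [map_sum]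
  refine Finset.sum_congr rfl (fun h _ => ?_)
  rw [map_mul, Complex.conj_ofReal, ← Complex.exp_conj, map_sum]
  congr 2
  refine Finset.sum_congr rfl (fun v _ => ?_)
  rw [map_mul, map_mul, Complex.conj_ofReal, Complex.conj_I, map_intCast]
  push_cast; ring

lemma PF.eval_ne (P : PF) {ζ : ℂ} (hζ : |ζ.im| < Real.pi) :
    ∑ k ∈ P.supp, (P.w k : ℂ) * Complex.exp (ζ * (k : ℂ)) ≠ 0 := by
  have h1 : ∑ k ∈ P.supp, (P.w k : ℂ) * Complex.exp (ζ * (k : ℂ)) =
      Complex.exp (ζ * P.d) * (P.R.map (algebraMap ℝ ℂ)).eval (Complex.exp (-ζ)) := by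
    rw [eval_map, eval₂_eq_sum_range, Finset.mul_sum]
    refine Finset.sum_nbij' (fun k => (P.d - k).toNat) (fun n => P.d - (n : ℤ)) ?_ ?_ ?_ ?_ ?_
    · intro k hk
      rw [PF.supp, Finset.mem_Icc] at hk
      rw [Finset.mem_range]; omega
    · intro n hn
      rw [Finset.mem_range] at hn
      rw [PF.supp, Finset.mem_Icc]; omega
    · intro k hk
      rw [PF.supp, Finset.mem_Icc] at hk
      omega
    · intro n hn
      omega
    · intro k hk
      rw [PF.supp, Finset.mem_Icc] at hk
      rw [P.w_of_le hk.2]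
      have h2 : (((P.d - k).toNat : ℕ) : ℂ) = (P.d : ℂ) - (k : ℂ) := by
        have : (((P.d - k).toNat : ℤ) : ℂ) = ((P.d - k : ℤ) : ℂ) := by
          rw [Int.toNat_of_nonneg (by omega)]
        rw [Int.cast_natCast] at this
        rw [this]; push_cast; ring
      rw [← Complex.exp_nat_mul, h2, Complex.coe_algebraMap]
      have h3 : Complex.exp (ζ * (k : ℂ)) = Complex.exp (ζ * P.d) *
          Complex.exp (((P.d : ℂ) - (k : ℂ)) * -ζ) := by
        rw [← Complex.exp_add]; congr 1; ring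
      rw [h3]; ring
  rw [h1]
  refine mul_ne_zero (Complex.exp_ne_zero _) (fun h0 => ?_)
  obtain ⟨h2, h3⟩ := P.roots _ h0
  rw [Complex.exp_im] at h2
  rw [Complex.exp_re] at h3
  simp only [Complex.neg_re, Complex.neg_im, Real.sin_neg, Real.cos_neg] at h2 h3
  rw [abs_lt] at hζ
  have h4 : Real.sin ζ.im = 0 := by
    have := (Real.exp_pos (-ζ.re)).ne'
    have h5 : Real.exp (-ζ.re) * -Real.sin ζ.im = 0 := h2
    rcases mul_eq_zero.1 h5 with h | h
    · exact absurd h this
    · linarith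
  have h5 : ζ.im = 0 := (Real.sin_eq_zero_iff_of_lt_of_lt hζ.1 hζ.2).1 h4
  rw [h5, Real.cos_zero, mul_one] at h3
  exact absurd h3 (not_lt.2 (Real.exp_pos _).le)

/-- sums over boxes of functions that factor through one coordinate and the rest -/
lemma box_factor (S : V → Finset ℤ) (u : V) (Γ : (V → ℤ) → ℂ)
    (hΓ : ∀ h k, Γ (Function.update h u k) = Γ h) :
    ∃ B : ℂ, ∀ f : ℤ → ℂ, ∑ h ∈ Fintype.piFinset S, f (h u) * Γ h = (∑ k ∈ S u, f k) * B := by
  classical
  rcases (S u).eq_empty_or_nonempty with h0 | ⟨k0, hk0⟩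
  · refine ⟨0, fun f => ?_⟩
    rw [mul_zero]
    refine Finset.sum_eq_zero (fun h hh => ?_)
    have := Fintype.mem_piFinset.1 hh u
    rw [h0] at this
    exact absurd this (Finset.notMem_empty _)
  · refine ⟨∑ h ∈ (Fintype.piFinset S).filter (fun h => h u = k0), Γ h, fun f => ?_⟩
    rw [← Finset.sum_fiberwise_of_maps_to (s := Fintype.piFinset S) (t := S u) (g := fun h => h u)
      (fun h hh => Fintype.mem_piFinset.1 hh u), Finset.sum_mul]
    refine Finset.sum_congr rfl (fun k hk => ?_)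
    have h1 : ∑ h ∈ (Fintype.piFinset S).filter (fun h => h u = k), f (h u) * Γ h =
        f k * ∑ h ∈ (Fintype.piFinset S).filter (fun h => h u = k), Γ h := by
      rw [Finset.mul_sum]
      refine Finset.sum_congr rfl (fun h hh => ?_)
      rw [(Finset.mem_filter.1 hh).2]
    rw [h1]
    congr 1
    refine Finset.sum_nbij' (fun h => Function.update h u k0) (fun h => Function.update h u k)
      ?_ ?_ ?_ ?_ ?_
    · intro h hh
      rw [Finset.mem_filter, Fintype.mem_piFinset] at hh ⊢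
      refine ⟨fun v => ?_, by simp⟩
      by_cases hv : v = u
      · subst hv; simpa using hk0
      · simpa [hv] using hh.1 v
    · intro h hh
      rw [Finset.mem_filter, Fintype.mem_piFinset] at hh ⊢
      refine ⟨fun v => ?_, by simp⟩
      by_cases hv : v = u
      · subst hv; simpa using hk
      · simpa [hv] using hh.1 v
    · intro h hh
      simp only [Function.update_idem]
      rw [← (Finset.mem_filter.1 hh).2, Function.update_eq_self]
    · intro h hh
      simp only [Function.update_idem]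
      rw [← (Finset.mem_filter.1 hh).2, Function.update_eq_self]
    · intro h _
      exact (hΓ h k0).symm

variable {ι : Type*}

/-- a gradient model: vertex weights `Ω v` and edge weights `P e` on the edges `s e → t e` -/
structure Model (V ι : Type*) where
  s : ι → V
  t : ι → V
  P : ι → PF
  Ω : V → PF

namespace Model

variable (M : Model V ι)

/-- the weight of a configuration, using the edges in `L` only -/
noncomputable def p (L : Finset ι) (h : V → ℤ) : ℝ :=
  (∏ v, (M.Ω v).w (h v)) * ∏ e ∈ L, (M.P e).w (h (M.t e) - h (M.s e))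

/-- a finite box containing the support -/
noncomputable def H : Finset (V → ℤ) := Fintype.piFinset (fun v => (M.Ω v).supp)

omit [DecidableEq V] in
lemma p_nonneg (L : Finset ι) (h : V → ℤ) : 0 ≤ M.p L h :=
  mul_nonneg (Finset.prod_nonneg (fun _ _ => PF.w_nonneg _ _))
    (Finset.prod_nonneg (fun _ _ => PF.w_nonneg _ _))

lemma p_supp (L : Finset ι) (h : V → ℤ) (hh : h ∉ M.H) : M.p L h = 0 := by
  by_contra hne
  apply hh
  rw [H, Fintype.mem_piFinset]
  intro v
  have h1 := left_ne_zero_of_mul hne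
  exact PF.w_mem ((Finset.prod_ne_zero_iff.1 h1) v (Finset.mem_univ v))

/-- a vertex without (nonloop) edges can be integrated out -/
lemma iso {L : Finset ι} {u : V} (hiso : ∀ e ∈ L, M.s e ≠ M.t e → M.s e ≠ u ∧ M.t e ≠ u)
    (c : ℝ) (x : V → ℝ) {z z' : V → ℂ} (hz : ∀ v, v ≠ u → z v = z' v)
    (him : |(z u).im| < Real.pi)
    (h0 : N M.H (fun h => c * M.p L h * Real.exp (∑ v, x v * (h v : ℝ))) z' ≠ 0) :
    N M.H (fun h => c * M.p L h * Real.exp (∑ v, x v * (h v : ℝ))) z ≠ 0 := by
  classical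
  set Γ : (V → ℤ) → ℂ := fun h => (c : ℂ) * (∏ v ∈ Finset.univ.erase u, ((M.Ω v).w (h v) : ℂ)) *
    (∏ e ∈ L, ((M.P e).w (h (M.t e) - h (M.s e)) : ℂ)) *
    Complex.exp (∑ v ∈ Finset.univ.erase u, ((x v : ℂ) + z' v) * (h v : ℂ)) with hΓ
  have hinv : ∀ h k, Γ (Function.update h u k) = Γ h := by
    intro h k
    have e1 : ∀ v ∈ Finset.univ.erase u, Function.update h u k v = h v := by
      intro v hv
      rw [Function.update_of_ne (Finset.ne_of_mem_erase hv)]
    have e2 : ∀ e ∈ L, Function.update h u k (M.t e) - Function.update h u k (M.s e) =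
        h (M.t e) - h (M.s e) := by
      intro e he
      by_cases hst : M.s e = M.t e
      · rw [hst, sub_self, sub_self]
      · obtain ⟨h1, h2⟩ := hiso e he hst
        rw [Function.update_of_ne h1, Function.update_of_ne h2]
    have e3 : ∏ v ∈ Finset.univ.erase u, ((M.Ω v).w (Function.update h u k v) : ℂ) =
        ∏ v ∈ Finset.univ.erase u, ((M.Ω v).w (h v) : ℂ) :=
      Finset.prod_congr rfl (fun v hv => by rw [e1 v hv])
    have e4 : ∏ e ∈ L, ((M.P e).w (Function.update h u k (M.t e) -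
        Function.update h u k (M.s e)) : ℂ) = ∏ e ∈ L, ((M.P e).w (h (M.t e) - h (M.s e)) : ℂ) :=
      Finset.prod_congr rfl (fun e he => by rw [e2 e he])
    have e5 : ∑ v ∈ Finset.univ.erase u, ((x v : ℂ) + z' v) * (Function.update h u k v : ℂ) =
        ∑ v ∈ Finset.univ.erase u, ((x v : ℂ) + z' v) * (h v : ℂ) :=
      Finset.sum_congr rfl (fun v hv => by rw [e1 v hv])
    simp only [hΓ]
    rw [e3, e4, e5]
  obtain ⟨B, hB⟩ := box_factor (fun v => (M.Ω v).supp) u Γ hinv
  have hrep : ∀ ζ : V → ℂ, (∀ v, v ≠ u → ζ v = z' v) →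
      N M.H (fun h => c * M.p L h * Real.exp (∑ v, x v * (h v : ℝ))) ζ =
      (∑ k ∈ (M.Ω u).supp, ((M.Ω u).w k : ℂ) * Complex.exp (((x u : ℂ) + ζ u) * (k : ℂ))) * B := by
    intro ζ hζ
    rw [← hB (fun k => ((M.Ω u).w k : ℂ) * Complex.exp (((x u : ℂ) + ζ u) * (k : ℂ)))]
    unfold N
    refine Finset.sum_congr rfl (fun h _ => ?_)
    simp only [hΓ, p]
    push_cast
    rw [← Finset.mul_prod_erase Finset.univ (fun v => ((M.Ω v).w (h v) : ℂ)) (Finset.mem_univ u),
      ← Finset.add_sum_erase Finset.univ (fun v => (x v : ℂ) * (h v : ℂ)) (Finset.mem_univ u),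
      ← Finset.add_sum_erase Finset.univ (fun v => ζ v * (h v : ℂ)) (Finset.mem_univ u)]
    have e1 : ∑ v ∈ Finset.univ.erase u, ζ v * (h v : ℂ) =
        ∑ v ∈ Finset.univ.erase u, z' v * (h v : ℂ) :=
      Finset.sum_congr rfl (fun v hv => by rw [hζ v (Finset.ne_of_mem_erase hv)])
    rw [e1]
    simp only [add_mul, Finset.sum_add_distrib, Complex.exp_add]
    ring
  have hBne : B ≠ 0 := by
    rintro rfl
    apply h0
    rw [hrep z' (fun _ _ => rfl), mul_zero]
  rw [hrep z hz]
  refine mul_ne_zero (PF.eval_ne _ ?_) hBne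
  simpa using him

omit [DecidableEq V] in
lemma p_erase [DecidableEq ι] {L : Finset ι} {e : ι} (he : e ∈ L) (h : V → ℤ) :
    M.p L h = M.p (L.erase e) h * (M.P e).w (h (M.t e) - h (M.s e)) := by
  unfold p
  rw [mul_assoc, mul_comm (∏ e' ∈ L.erase e, _), Finset.mul_prod_erase L
    (fun e => (M.P e).w (h (M.t e) - h (M.s e))) he]

/-- the edge step -/
lemma edge_step [DecidableEq ι] {L : Finset ι} {e : ι} (he : e ∈ L)
    (ih : (∃ h ∈ M.H, M.p (L.erase e) h ≠ 0) → LYs M.H (M.p (L.erase e)))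
    (hne : ∃ h ∈ M.H, M.p L h ≠ 0) {c : ℝ} (hc : 0 < c) (x : V → ℝ) {a b : V}
    (hinc : M.s e = a ∨ M.t e = a) {T : ℝ} (hT0 : 0 < T) (hT : T < Real.pi) :
    N M.H (fun h => c * M.p L h * Real.exp (∑ v, x v * (h v : ℝ)))
      (fun v => ((T * ed a b v : ℝ) : ℂ) * Complex.I) ≠ 0 := by
  have hne' : ∃ h ∈ M.H, M.p (L.erase e) h ≠ 0 := by
    obtain ⟨h, hh, hh'⟩ := hne
    rw [M.p_erase he] at hh'
    exact ⟨h, hh, left_ne_zero_of_mul hh'⟩
  have hLY := ih hne'
  set q' : (V → ℤ) → ℝ := fun h => c * M.p (L.erase e) h * Real.exp (∑ v, x v * (h v : ℝ)) with hq'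
  have hq'mem : q' ∈ Cone (M.p (L.erase e)) := ⟨c, hc, x, rfl⟩
  have hsub : Cone q' ⊆ Cone (M.p (L.erase e)) := by
    rintro _ ⟨c', hc', x', rfl⟩
    exact ⟨c' * c, mul_pos hc' hc, x + x', by
      funext h
      simp only [hq', Pi.add_apply, add_mul, Finset.sum_add_distrib, Real.exp_add]
      ring⟩
  have hLY' : LYs M.H q' := fun q hq => hLY q (closure_mono hsub hq)
  have hs' : ∀ h, h ∉ M.H → q' h = 0 := by
    intro h hh
    simp only [hq']
    rw [M.p_supp _ h hh, mul_zero, zero_mul]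
  have hfun : (fun h => c * M.p L h * Real.exp (∑ v, x v * (h v : ℝ))) =
      fun h => q' h * (M.P e).w (h (M.t e) - h (M.s e)) := by
    funext h
    rw [M.p_erase he]
    simp only [hq']
    ring
  rw [hfun]
  have hne2 : ∃ h ∈ M.H, q' h * (M.P e).w (h (M.t e) - h (M.s e)) ≠ 0 := by
    obtain ⟨h, hh, hh'⟩ := hne
    refine ⟨h, hh, ?_⟩
    have := congrFun hfun h
    rw [← this]
    exact mul_ne_zero (mul_ne_zero hc.ne' hh') (Real.exp_pos _).ne'
  have hy : ∑ v, T * ed a b v = 0 := by rw [← Finset.mul_sum, sum_ed, mul_zero]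
  rcases hinc with h1 | h1
  · refine stepA0 hs' hLY' (M.P e) (M.s e) (M.t e) hne2 hy hT0.le hT (σ := -1) (Or.inr rfl)
      (fun θ h2 h3 => ?_)
    have h4 := reg_bound a b (M.t e) hT0.le hT h2 h3
    refine lt_of_le_of_lt (le_of_eq ?_) h4
    refine Finset.sum_congr rfl (fun v _ => ?_)
    rw [h1]
    congr 1
    unfold ed; ring
  · refine stepA0 hs' hLY' (M.P e) (M.s e) (M.t e) hne2 hy hT0.le hT (σ := 1) (Or.inl rfl)
      (fun θ h2 h3 => ?_)
    have h4 := reg_bound a b (M.s e) hT0.le hT h2 h3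
    refine lt_of_le_of_lt (le_of_eq ?_) h4
    refine Finset.sum_congr rfl (fun v _ => ?_)
    rw [h1]
    congr 1
    ring

/-- **zero-free region** for gradient models with real rooted weights -/
theorem LY [DecidableEq ι] (L : Finset ι) : (∃ h ∈ M.H, M.p L h ≠ 0) → LYs M.H (M.p L) := by
  induction L using Finset.strongInduction with
  | H L ih =>
    intro hne
    refine LYs_of_K2s (M.p_nonneg L) (M.p_supp L) (K2s_of_K2 (M.p_nonneg L) ?_)
    rintro _ ⟨c, hc, x, rfl⟩ a b hab T hT0 hT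
    by_cases hA : ∃ e ∈ L, M.s e ≠ M.t e ∧ (M.s e = a ∨ M.t e = a)
    · obtain ⟨e, he, -, hinc⟩ := hA
      exact M.edge_step he (ih _ (Finset.erase_ssubset he)) hne hc x hinc hT0 hT
    by_cases hB : ∃ e ∈ L, M.s e ≠ M.t e ∧ (M.s e = b ∨ M.t e = b)
    · obtain ⟨e, he, -, hinc⟩ := hB
      have h1 := M.edge_step (b := a) he (ih _ (Finset.erase_ssubset he)) hne hc x hinc hT0 hT
      intro h2
      apply h1
      have h3 := N_conj M.H (fun h => c * M.p L h * Real.exp (∑ v, x v * (h v : ℝ)))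
        (fun v => T * ed a b v)
      rw [h2, map_zero] at h3
      rw [← h3]
      congr 1
      funext v
      congr 2
      unfold ed; ring
    · push Not at hA hB
      have hisoA : ∀ e ∈ L, M.s e ≠ M.t e → M.s e ≠ a ∧ M.t e ≠ a := hA
      have hisoB : ∀ e ∈ L, M.s e ≠ M.t e → M.s e ≠ b ∧ M.t e ≠ b := hB
      refine M.iso hisoA c x (z' := fun v => if v = a then 0 else
        ((T * ed a b v : ℝ) : ℂ) * Complex.I) (fun v hv => by rw [if_neg hv]) ?_ ?_
      · have : ((((T * ed a b a : ℝ)) : ℂ) * Complex.I).im = T := by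
          simp [ed, hab]
        rw [this, abs_of_pos hT0]
        exact hT
      · refine M.iso hisoB c x (z' := fun _ => 0) (fun v hv => ?_) ?_ ?_
        · split_ifs with h1
          · rfl
          · simp [ed, h1, hv]
        · rw [if_neg hab.symm]
          have : ((((T * ed a b b : ℝ)) : ℂ) * Complex.I).im = -T := by
            simp [ed, hab.symm]
          rw [this, abs_neg, abs_of_pos hT0]
          exact hT
        · have : N M.H (fun h => c * M.p L h * Real.exp (∑ v, x v * (h v : ℝ))) (fun _ => 0) =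
              ((∑ h ∈ M.H, c * M.p L h * Real.exp (∑ v, x v * (h v : ℝ)) : ℝ) : ℂ) := by
            simp [N]
          rw [this]
          norm_cast
          obtain ⟨h, hh, hh'⟩ := hne
          apply ne_of_gt
          refine Finset.sum_pos' (fun h _ => ?_) ⟨h, hh, ?_⟩
          · exact mul_nonneg (mul_nonneg hc.le (M.p_nonneg L h)) (Real.exp_pos _).le
          · exact mul_pos (mul_pos hc (lt_of_le_of_ne (M.p_nonneg L h) (Ne.symm hh')))
              (Real.exp_pos _)

end Model

end Pool.Agent.Helper909_ly
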