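import Mathlib

/-!
Persistence of zeros of entire functions under continuous perturbation (a form of the theorem of
Hurwitz).
-/

namespace Pool.Agent.Helper909_ly

open Complex Metric Set Filter Topology

theorem persist {X : Type*} [TopologicalSpace X] {G : X → ℂ → ℂ}
    (hG : Continuous fun p : X × ℂ => G p.1 p.2)
    (hd : ∀ x, Differentiable ℂ (G x)) {x0 : X} {s0 : ℂ} (h0 : G x0 s0 = 0)
    (hne : ∃ s, G x0 s ≠ 0) {ρ : ℝ} (hρ : 0 < ρ) :
    ∀ᶠ x in 𝓝 x0, ∃ s ∈ closedBall s0 ρ, G x s = 0 := by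
  have hcont : ∀ x, Continuous (G x) := fun x => (hd x).continuous
  -- isolated zero
  have hiso : ∀ᶠ s in 𝓝[≠] s0, G x0 s ≠ 0 := by
    have han : AnalyticOnNhd ℂ (G x0) univ := (hd x0).differentiableOn.analyticOnNhd isOpen_univ
    rcases (han s0 (mem_univ _)).eventually_eq_zero_or_eventually_ne_zero with h | h
    · exfalso
      obtain ⟨s, hs⟩ := hne
      apply hs
      have := han.eqOn_zero_of_preconnected_of_eventuallyEq_zero isPreconnected_univ
        (mem_univ s0) h
      exact this (mem_univ s)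
    · exact h
  rw [eventually_nhdsWithin_iff, Metric.eventually_nhds_iff] at hiso
  obtain ⟨δ, hδ, hδ'⟩ := hiso
  set r : ℝ := min ρ (δ / 2) with hr
  have hr0 : 0 < r := lt_min hρ (by linarith)
  have hrδ : r < δ := lt_of_le_of_lt (min_le_right _ _) (by linarith)
  -- lower bound on the sphere
  have hsph : ∃ m > 0, ∀ s ∈ sphere s0 r, m ≤ ‖G x0 s‖ := by
    have hc : IsCompact (sphere s0 r) := isCompact_sphere _ _
    have hne' : (sphere s0 r).Nonempty := NormedSpace.sphere_nonempty.2 hr0.le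
    obtain ⟨s1, hs1, hmin⟩ := hc.exists_isMinOn hne' ((hcont x0).norm.continuousOn)
    refine ⟨‖G x0 s1‖, ?_, fun s hs => hmin hs⟩
    rw [gt_iff_lt, norm_pos_iff]
    apply hδ'
    · rw [mem_sphere.1 hs1]; exact hrδ
    · intro h
      rw [mem_singleton_iff] at h
      rw [h, mem_sphere, dist_self] at hs1
      exact hr0.ne hs1
  obtain ⟨m, hm, hmle⟩ := hsph
  -- uniform closeness
  have hev : ∀ᶠ x in 𝓝 x0, ∀ s ∈ closedBall s0 r, ‖G x s - G x0 s‖ < m / 4 := by
    refine (isCompact_closedBall s0 r).eventually_forall_of_forall_eventually (fun s _ => ?_)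
    have hc : Continuous fun p : X × ℂ => ‖G p.1 p.2 - G x0 p.2‖ :=
      (hG.sub ((hcont x0).comp continuous_snd)).norm
    have h1 : ‖G (x0, s).1 (x0, s).2 - G x0 (x0, s).2‖ < m / 4 := by
      simp only [sub_self, norm_zero]; linarith
    exact (hc.continuousAt (x := (x0, s))).eventually (gt_mem_nhds h1)
  filter_upwards [hev] with x hx
  have hs0 : ‖G x s0‖ < m / 4 := by
    have := hx s0 (mem_closedBall_self hr0.le)
    rwa [h0, sub_zero] at this
  have hlow : ∀ z ∈ sphere s0 r, m / 2 ≤ ‖G x z - G x s0‖ := by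
    intro z hz
    have h1 := hmle z hz
    have h2 := hx z (sphere_subset_closedBall hz)
    have h3 : ‖G x0 z‖ ≤ ‖G x z - G x s0‖ + ‖G x s0‖ + ‖G x z - G x0 z‖ := by
      have : G x0 z = (G x z - G x s0) + G x s0 - (G x z - G x0 z) := by ring
      calc ‖G x0 z‖ = ‖(G x z - G x s0) + G x s0 - (G x z - G x0 z)‖ := by rw [← this]
        _ ≤ ‖(G x z - G x s0) + G x s0‖ + ‖G x z - G x0 z‖ := norm_sub_le _ _
        _ ≤ _ := by gcongr; exact norm_add_le _ _
    linarith
  have hfreq : ∃ᶠ z in 𝓝 s0, G x z ≠ G x s0 := by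
    rw [Metric.nhds_basis_ball.frequently_iff]
    intro ε hε
    by_contra hcon
    push Not at hcon
    have han : AnalyticOnNhd ℂ (G x) univ := (hd x).differentiableOn.analyticOnNhd isOpen_univ
    have hconst : EqOn (G x) (fun _ => G x s0) univ :=
      han.eqOn_of_preconnected_of_eventuallyEq (analyticOnNhd_const) isPreconnected_univ
        (mem_univ s0) (by
          filter_upwards [ball_mem_nhds s0 hε] with z hz using hcon z hz)
    obtain ⟨z, hz⟩ : (sphere s0 r).Nonempty := NormedSpace.sphere_nonempty.2 hr0.le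
    have h1 := hlow z hz
    rw [hconst (mem_univ z)] at h1
    simp only [sub_self, norm_zero] at h1
    linarith
  have himg := DiffContOnCl.ball_subset_image_closedBall
    ((hd x).diffContOnCl (s := ball s0 r)) hr0 hlow hfreq
  have hmem : (0 : ℂ) ∈ ball (G x s0) (m / 2 / 2) := by
    rw [mem_ball, dist_comm, dist_zero_right]
    calc ‖G x s0‖ < m / 4 := hs0
      _ = m / 2 / 2 := by ring
  obtain ⟨s, hs, hs'⟩ := himg hmem
  exact ⟨s, closedBall_subset_closedBall (min_le_left _ _) hs, hs'⟩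

end Pool.Agent.Helper909_ly
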