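import Mathlib

/-!
Coefficients of polynomials all of whose nonzero roots lie in an open half plane.
-/

namespace Pool.Agent.Helper909_ly

open Polynomial

theorem coeff_ne_zero_of_halfplane (ω : ℂ) (n : ℕ) : ∀ (P : Polynomial ℂ), P ≠ 0 →
    (∀ z, P.IsRoot z → (ω * z).re < 0) → n ≤ P.natDegree → P.coeff n ≠ 0 := by
  induction n with
  | zero =>
    intro P _ hr _ h0
    have : P.IsRoot 0 := by
      rw [IsRoot.def, ← coeff_zero_eq_eval_zero]; exact h0
    have := hr 0 this
    simp at this
  | succ n ih =>
    intro P hP hr hn
    have hdeg : 0 < P.natDegree := by omega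
    have hdeg' : 0 < P.degree := natDegree_pos_iff_degree_pos.1 hdeg
    have hd0 : derivative P ≠ 0 := by
      intro h
      have := derivative_eq_zero.1 h
      omega
    have hdd : (derivative P).natDegree = P.natDegree - 1 := natDegree_derivative P
    have hconv : Convex ℝ {z : ℂ | (ω * z).re < 0} := by
      have : {z : ℂ | (ω * z).re < 0} =
          (fun z : ℂ => ω.re * z.re - ω.im * z.im) ⁻¹' Set.Iio 0 := by
        ext z; simp [Complex.mul_re]
      rw [this]
      intro a ha b hb s t hs ht hst
      simp only [Set.mem_preimage, Set.mem_Iio, Complex.add_re, Complex.add_im, Complex.real_smul,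
        Complex.mul_re, Complex.mul_im, Complex.ofReal_re, Complex.ofReal_im, zero_mul, sub_zero,
        add_zero] at *
      have h1 : ω.re * (s * a.re + t * b.re) - ω.im * (s * a.im + t * b.im) =
        s * (ω.re * a.re - ω.im * a.im) + t * (ω.re * b.re - ω.im * b.im) := by ring
      rw [h1]
      rcases hs.eq_or_lt with h | h
      · have : t = 1 := by linarith
        subst this; rw [← h]; linarith
      · nlinarith [mul_neg_of_pos_of_neg h ha, mul_nonpos_of_nonneg_of_nonpos ht hb.le]
    have hroots : ∀ z, (derivative P).IsRoot z → (ω * z).re < 0 := by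
      intro z hz
      have hmem : z ∈ (derivative P).rootSet ℂ := by
        rw [mem_rootSet]
        refine ⟨hd0, ?_⟩
        simpa [aeval_def, eval₂_eq_eval_map] using hz
      have h1 := rootSet_derivative_subset_convexHull_rootSet hdeg' hmem
      have h2 : P.rootSet ℂ ⊆ {z : ℂ | (ω * z).re < 0} := by
        intro w hw
        rw [mem_rootSet] at hw
        apply hr
        have := hw.2
        simpa [aeval_def, eval₂_eq_eval_map] using this
      exact (convexHull_min h2 hconv) h1
    have h := ih (derivative P) hd0 hroots (by omega)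
    rw [coeff_derivative] at h
    intro h0
    apply h
    rw [h0, zero_mul]

/-- if all nonzero roots lie in an open half plane, there are no internal zero coefficients -/
theorem coeff_ne_zero_of_between (ω : ℂ) (d : ℕ) : ∀ (P : Polynomial ℂ), P.natDegree ≤ d →
    (∀ z, z ≠ 0 → P.IsRoot z → (ω * z).re < 0) → ∀ n i j : ℕ, i ≤ n → n ≤ j →
    P.coeff i ≠ 0 → P.coeff j ≠ 0 → P.coeff n ≠ 0 := by
  induction d with
  | zero =>
    intro P hd _ n i j hin hnj hi hj
    have h1 : j ≤ P.natDegree := le_natDegree_of_ne_zero hj
    have : n = i := by omega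
    rw [this]; exact hi
  | succ d ih =>
    intro P hd hr n i j hin hnj hi hj
    by_cases h0 : P.coeff 0 = 0
    · have hi1 : i ≠ 0 := by rintro rfl; exact hi h0
      obtain ⟨n', rfl⟩ : ∃ n', n = n' + 1 := ⟨n - 1, by omega⟩
      obtain ⟨i', rfl⟩ : ∃ i', i = i' + 1 := ⟨i - 1, by omega⟩
      obtain ⟨j', rfl⟩ : ∃ j', j = j' + 1 := ⟨j - 1, by omega⟩
      have hX : P = X * divX P := by
        have := divX_mul_X_add P
        rw [h0, C_0, add_zero] at this
        rw [mul_comm]; exact this.symm
      have key := ih (divX P) (by rw [natDegree_divX_eq_natDegree_tsub_one]; omega) (by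
        intro z hz hroot
        apply hr z hz
        rw [hX, IsRoot.def, eval_mul, hroot.eq_zero, mul_zero]) n' i' j' (by omega) (by omega)
        (by rw [coeff_divX]; exact hi) (by rw [coeff_divX]; exact hj)
      rwa [coeff_divX] at key
    · have hP : P ≠ 0 := by rintro rfl; simp at h0
      refine coeff_ne_zero_of_halfplane ω n P hP (fun z hz => ?_)
        (hnj.trans (le_natDegree_of_ne_zero hj))
      refine hr z ?_ hz
      rintro rfl
      apply h0
      rw [coeff_zero_eq_eval_zero]; exact hz

end Pool.Agent.Helper909_ly
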