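import Pool.Agent.Helper909_ly.Defs
import Pool.Agent.Helper909_ly.Sector

/-!
Multiplying by an edge weight with a real rooted generating polynomial.
-/

namespace Pool.Agent.Helper909_ly

open Finset Filter Topology Polynomial

/-- a finitely supported weight on the integers whose generating polynomial has nonnegative
coefficients and only negative real zeros: `w k = R.coeff (d - k)` -/
structure PF where
  R : Polynomial ℝ
  d : ℤ
  nonneg : ∀ n, 0 ≤ R.coeff n
  ne : R ≠ 0
  roots : ∀ z : ℂ, (R.map (algebraMap ℝ ℂ)).IsRoot z → z.im = 0 ∧ z.re < 0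

namespace PF

/-- the weight -/
noncomputable def w (P : PF) (k : ℤ) : ℝ := if k ≤ P.d then P.R.coeff (P.d - k).toNat else 0

lemma w_of_le (P : PF) {k : ℤ} (h : k ≤ P.d) : P.w k = P.R.coeff (P.d - k).toNat := if_pos h

lemma w_of_not_le (P : PF) {k : ℤ} (h : ¬ k ≤ P.d) : P.w k = 0 := if_neg h

lemma w_nonneg (P : PF) (k : ℤ) : 0 ≤ P.w k := by
  unfold w; split_ifs
  · exact P.nonneg _
  · exact le_rfl

/-- the support interval -/
noncomputable def supp (P : PF) : Finset ℤ := Finset.Icc (P.d - P.R.natDegree) P.d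

lemma w_ne {P : PF} {k : ℤ} (h : P.w k ≠ 0) : k ≤ P.d ∧ P.d - P.R.natDegree ≤ k := by
  unfold w at h
  split_ifs at h with h1
  · refine ⟨h1, ?_⟩
    have := le_natDegree_of_ne_zero h
    omega
  · exact absurd rfl h

lemma w_mem {P : PF} {k : ℤ} (h : P.w k ≠ 0) : k ∈ P.supp := by
  rw [supp, Finset.mem_Icc]
  exact ⟨(w_ne h).2, (w_ne h).1⟩

lemma coeff_zero_ne (P : PF) : P.R.coeff 0 ≠ 0 := by
  intro h
  have : (P.R.map (algebraMap ℝ ℂ)).IsRoot 0 := by
    rw [IsRoot.def, ← coeff_zero_eq_eval_zero, coeff_map, h, map_zero]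
  have := (P.roots 0 this).2
  simp at this

lemma coeff_deg_ne (P : PF) : P.R.coeff P.R.natDegree ≠ 0 := by
  rw [← leadingCoeff]; exact leadingCoeff_ne_zero.2 P.ne

end PF

variable {V : Type*} [Fintype V] [DecidableEq V]

lemma sum_ed_h (a b : V) (t : ℝ) (h : V → ℤ) :
    ∑ v, (t * ed a b v) * (h v : ℝ) = t * ((h a - h b : ℤ) : ℝ) := by
  simp only [mul_assoc]
  rw [← Finset.mul_sum, sum_ed_mul a b (fun v => (h v : ℝ))]
  push_cast; ring

/-- the restriction to the lowest level of `h b - h a` is a limit of tilts -/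
lemma face_mem {q : (V → ℤ) → ℝ} (a b : V) (k0 : ℤ) (hk : ∀ h, q h ≠ 0 → k0 ≤ h b - h a) :
    (fun h => if h b - h a = k0 then q h else 0) ∈ closure (Cone q) := by
  refine mem_closure_of_tendsto (f := fun (n : ℕ) (h : V → ℤ) =>
    Real.exp (n * k0) * q h * Real.exp (∑ v, ((-(n : ℝ)) * ed b a v) * (h v : ℝ)))
    (b := atTop) ?_ (Filter.Eventually.of_forall (fun n => ?_))
  · rw [tendsto_pi_nhds]
    intro h
    by_cases hq : q h = 0
    · simp [hq]
    · have h1 := hk h hq
      have h2 : ∀ n : ℕ, Real.exp (n * k0) * q h *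
          Real.exp (∑ v, ((-(n : ℝ)) * ed b a v) * (h v : ℝ)) =
          q h * Real.exp (-((h b - h a - k0 : ℤ) : ℝ)) ^ n := by
        intro n
        rw [sum_ed_h, mul_comm (Real.exp _) (q h), mul_assoc, ← Real.exp_add, ← Real.exp_nat_mul]
        congr 2
        push_cast; ring
      simp only [h2]
      split_ifs with h3
      · simp [h3]
      · have h4 : (0 : ℝ) < ((h b - h a - k0 : ℤ) : ℝ) := by
          have : (0 : ℤ) < h b - h a - k0 := by omega
          exact_mod_cast this
        have h5 : Tendsto (fun n : ℕ => Real.exp (-((h b - h a - k0 : ℤ) : ℝ)) ^ n) atTop (𝓝 0) :=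
          tendsto_pow_atTop_nhds_zero_of_lt_one (Real.exp_pos _).le
            (by rw [Real.exp_lt_one_iff]; linarith)
        simpa using h5.const_mul (q h)
  · exact ⟨Real.exp (n * k0), Real.exp_pos _, fun v => (-(n : ℝ)) * ed b a v, rfl⟩

omit [Fintype V] [DecidableEq V] in
/-- existence of an extreme value -/
lemma exists_min {H : Finset (V → ℤ)} {q : (V → ℤ) → ℝ} (hs : ∀ h, h ∉ H → q h = 0)
    (hne : ∃ h ∈ H, q h ≠ 0) (g : (V → ℤ) → ℤ) :
    ∃ h1 ∈ H, q h1 ≠ 0 ∧ ∀ h, q h ≠ 0 → g h1 ≤ g h := by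
  classical
  obtain ⟨h0, h0H, h0q⟩ := hne
  obtain ⟨h1, h1m, h1le⟩ := Finset.exists_min_image (H.filter (fun h => q h ≠ 0)) g
    ⟨h0, by simp [h0H, h0q]⟩
  rw [Finset.mem_filter] at h1m
  refine ⟨h1, h1m.1, h1m.2, fun h hq => h1le h ?_⟩
  rw [Finset.mem_filter]
  refine ⟨?_, hq⟩
  by_contra hh
  exact hq (hs h hh)

lemma re_rot_neg {T : ℝ} (hT0 : 0 ≤ T) (hT : T < Real.pi) {σ : ℝ} (hσ : σ = 1 ∨ σ = -1) {z : ℂ}
    (hz : z ≠ 0) (harg : ¬ (-Real.pi < σ * z.arg ∧ σ * z.arg < Real.pi - T)) :
    (Complex.exp ((σ * T / 2 : ℝ) * Complex.I) * z).re < 0 := by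
  have hzz : (Complex.exp ((σ * T / 2 : ℝ) * Complex.I) * z).re =
      ‖z‖ * Real.cos (z.arg + σ * T / 2) := by
    conv_lhs => rw [← Complex.norm_mul_exp_arg_mul_I z]
    rw [← mul_assoc, mul_comm (Complex.exp _) ((‖z‖ : ℝ) : ℂ), mul_assoc, ← Complex.exp_add,
      ← add_mul, ← Complex.ofReal_add, Complex.re_ofReal_mul, Complex.exp_ofReal_mul_I_re]
    congr 2; ring
  rw [hzz]
  have hn : 0 < ‖z‖ := norm_pos_iff.2 hz
  have h1 := Complex.neg_pi_lt_arg z
  have h2 := Complex.arg_le_pi z
  apply mul_neg_of_pos_of_neg hn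
  rcases hσ with rfl | rfl
  · rw [one_mul] at harg
    have h3 : Real.pi - T ≤ z.arg := by
      by_contra h
      push Not at h
      exact harg ⟨h1, h⟩
    have h4 : Real.cos (z.arg + 1 * T / 2) = - Real.cos (z.arg + 1 * T / 2 - Real.pi) := by
      rw [Real.cos_sub_pi, neg_neg]
    rw [h4, neg_lt_zero]
    apply Real.cos_pos_of_mem_Ioo
    constructor <;> linarith
  · by_cases h3 : z.arg = Real.pi
    · rw [h3]
      have h4 : Real.cos (Real.pi + -1 * T / 2) = - Real.cos (-1 * T / 2) := by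
        rw [add_comm, Real.cos_add_pi]
      rw [h4, neg_lt_zero]
      apply Real.cos_pos_of_mem_Ioo
      constructor <;> linarith
    · have h5 : z.arg < Real.pi := lt_of_le_of_ne h2 h3
      have h6 : z.arg ≤ -(Real.pi - T) := by
        by_contra h
        push Not at h
        exact harg ⟨by linarith, by linarith⟩
      have h4 : Real.cos (z.arg + -1 * T / 2) = - Real.cos (z.arg + -1 * T / 2 + Real.pi) := by
        rw [Real.cos_add_pi, neg_neg]
      rw [h4, neg_lt_zero]
      apply Real.cos_pos_of_mem_Ioo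
      constructor <;> linarith

/-- the key step: the weighted sum is an inner coefficient of a polynomial whose nonzero roots lie in
an open half plane -/
theorem stepA0 {H : Finset (V → ℤ)} {q : (V → ℤ) → ℝ} (hs : ∀ h, h ∉ H → q h = 0)
    (hLY : LYs H q) (P : PF) (a b : V) (hne : ∃ h ∈ H, q h * P.w (h b - h a) ≠ 0)
    {y : V → ℝ} (hy : ∑ v, y v = 0) {T : ℝ} (hT0 : 0 ≤ T) (hT : T < Real.pi) {σ : ℝ}
    (hσ : σ = 1 ∨ σ = -1)
    (hreg : ∀ θ : ℝ, -Real.pi < θ → θ < Real.pi - T →
      ∑ v, |y v + σ * θ * ed b a v| < 2 * Real.pi) :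
    N H (fun h => q h * P.w (h b - h a)) (fun v => (y v : ℂ) * Complex.I) ≠ 0 := by
  classical
  set c : (V → ℤ) → ℂ := fun h => (q h : ℂ) * Complex.exp (∑ v, (y v : ℂ) * Complex.I * (h v : ℂ))
    with hc
  set m : ℕ := (∑ h ∈ H, (h b - h a).natAbs) + P.d.natAbs with hm
  have hmk : ∀ h ∈ H, 0 ≤ (h b - h a) + (m : ℤ) := by
    intro h hh
    have h1 : (h b - h a).natAbs ≤ ∑ h ∈ H, (h b - h a).natAbs :=
      Finset.single_le_sum (f := fun h : V → ℤ => (h b - h a).natAbs) (fun _ _ => Nat.zero_le _) hh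
    omega
  have hmd : 0 ≤ P.d + (m : ℤ) := by omega
  have hqne : ∃ h ∈ H, q h ≠ 0 := by
    obtain ⟨h, hh, hh'⟩ := hne
    exact ⟨h, hh, left_ne_zero_of_mul hh'⟩
  have hS : ∑ v, |y v| < 2 * Real.pi := by
    have := hreg 0 (by linarith [Real.pi_pos]) (by linarith)
    simpa using this
  set Rc : Polynomial ℂ := P.R.map (algebraMap ℝ ℂ) with hRc
  set Pp : Polynomial ℂ := ∑ h ∈ H, C (c h) * (X ^ ((h b - h a) + (m : ℤ)).toNat * Rc) with hPp
  have hcoeff : ∀ n, Pp.coeff n = ∑ h ∈ H, c h * (if ((h b - h a) + (m : ℤ)).toNat ≤ n then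
      Rc.coeff (n - ((h b - h a) + (m : ℤ)).toNat) else 0) := by
    intro n
    rw [hPp, finsetSum_coeff]
    refine Finset.sum_congr rfl (fun h _ => ?_)
    rw [coeff_C_mul, coeff_X_pow_mul']
  -- the target coefficient
  have htar : Pp.coeff (P.d + m).toNat =
      N H (fun h => q h * P.w (h b - h a)) (fun v => (y v : ℂ) * Complex.I) := by
    rw [hcoeff]
    unfold N
    refine Finset.sum_congr rfl (fun h hh => ?_)
    have h1 := hmk h hh
    by_cases h2 : h b - h a ≤ P.d
    · rw [if_pos (by omega)]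
      have h3 : (P.d + (m : ℤ)).toNat - ((h b - h a) + (m : ℤ)).toNat = (P.d - (h b - h a)).toNat := by
        omega
      rw [h3, hRc, coeff_map, hc]
      simp only [P.w_of_le h2]
      push_cast
      simp only [Complex.coe_algebraMap]
      ring
    · rw [if_neg (by omega)]
      simp only [P.w_of_not_le h2]
      simp
  -- the roots
  have hroots : ∀ z, z ≠ 0 → Pp.IsRoot z →
      (Complex.exp ((σ * T / 2 : ℝ) * Complex.I) * z).re < 0 := by
    intro z hz hroot
    have hev : Rc.eval z * ∑ h ∈ H, c h * z ^ ((h b - h a) + (m : ℤ)).toNat = 0 := by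
      rw [IsRoot.def, hPp, eval_finsetSum] at hroot
      rw [← hroot, Finset.mul_sum]
      refine Finset.sum_congr rfl (fun h _ => ?_)
      simp only [eval_mul, eval_C, eval_pow, eval_X]
      ring
    rcases mul_eq_zero.1 hev with h1 | h1
    · obtain ⟨h2, h3⟩ := P.roots z h1
      have hcos : 0 < Real.cos (σ * T / 2) := by
        apply Real.cos_pos_of_mem_Ioo
        rcases hσ with rfl | rfl <;> constructor <;> linarith
      rw [Complex.mul_re, Complex.exp_ofReal_mul_I_re, h2, mul_zero, sub_zero]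
      exact mul_neg_of_pos_of_neg hcos h3
    · apply re_rot_neg hT0 hT hσ hz
      rintro ⟨h2, h3⟩
      have h4 := hreg (σ * z.arg) h2 h3
      have hσσ : σ * σ = 1 := by rcases hσ with rfl | rfl <;> norm_num
      set ζ : ℂ := Complex.log z with hζ
      have hzexp : z = Complex.exp ζ := (Complex.exp_log hz).symm
      have hN0 : N H q (fun v => (y v : ℂ) * Complex.I + ζ * (ed b a v : ℂ)) = 0 := by
        have h5 : Complex.exp (m * ζ) * N H q (fun v => (y v : ℂ) * Complex.I +
            ζ * (ed b a v : ℂ)) = ∑ h ∈ H, c h * z ^ ((h b - h a) + (m : ℤ)).toNat := by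
          unfold N
          rw [Finset.mul_sum]
          refine Finset.sum_congr rfl (fun h hh => ?_)
          have h6 : z ^ ((h b - h a) + (m : ℤ)).toNat =
              Complex.exp (((h b : ℂ) - (h a : ℂ)) * ζ + m * ζ) := by
            rw [hzexp, ← Complex.exp_nat_mul]
            congr 1
            have h7 : ((((h b - h a) + (m : ℤ)).toNat : ℤ) : ℂ) = ((h b - h a + (m : ℤ) : ℤ) : ℂ) := by
              rw [Int.toNat_of_nonneg (hmk h hh)]
            rw [Int.cast_natCast] at h7
            rw [h7]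
            push_cast
            ring
          have h8 : ∑ v, ((y v : ℂ) * Complex.I + ζ * (ed b a v : ℂ)) * (h v : ℂ) =
              ∑ v, (y v : ℂ) * Complex.I * (h v : ℂ) + ((h b : ℂ) - (h a : ℂ)) * ζ := by
            have h9 := sum_ed_mulC b a (fun v => (h v : ℂ))
            rw [← h9, Finset.sum_mul, ← Finset.sum_add_distrib]
            refine Finset.sum_congr rfl (fun v _ => ?_)
            ring
          rw [h8, h6, hc, Complex.exp_add, Complex.exp_add]
          ring
        rw [h1] at h5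
        rcases mul_eq_zero.1 h5 with h | h
        · exact absurd h (Complex.exp_ne_zero _)
        · exact h
      rw [N_eq_tilt] at hN0
      refine hLY _ (subset_closure (Cone_tilt (fun v => ((y v : ℂ) * Complex.I +
        ζ * (ed b a v : ℂ)).re) (self_mem_Cone q))) ?_
        (fun v => ((y v : ℂ) * Complex.I + ζ * (ed b a v : ℂ)).im) ?_ ?_ hN0
      · obtain ⟨h, hh, hh'⟩ := hqne
        exact ⟨h, hh, mul_ne_zero hh' (Real.exp_pos _).ne'⟩
      · have h5 : ∀ v, ((y v : ℂ) * Complex.I + ζ * (ed b a v : ℂ)).im =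
            y v + z.arg * ed b a v := by
          intro v
          simp [hζ, Complex.log_im]
        simp only [h5]
        rw [Finset.sum_add_distrib, ← Finset.mul_sum, sum_ed, hy]
        simp
      · have h5 : ∀ v, ((y v : ℂ) * Complex.I + ζ * (ed b a v : ℂ)).im =
            y v + σ * (σ * z.arg) * ed b a v := by
          intro v
          rw [← mul_assoc, hσσ, one_mul]
          simp [hζ, Complex.log_im]
        simp only [h5]
        exact h4
  -- the extreme coefficients
  have hkey : ∀ (h1 : V → ℤ), h1 ∈ H → q h1 ≠ 0 → (∀ h, q h ≠ 0 → h1 b - h1 a ≤ h b - h a) →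
      ∑ h ∈ H, (if h b - h a = h1 b - h1 a then c h else 0) ≠ 0 := by
    intro h1 hh1 hq1 hle
    have h2 := hLY _ (face_mem a b (h1 b - h1 a) hle) ⟨h1, hh1, by simpa using hq1⟩ y hy hS
    intro h3
    apply h2
    rw [← h3]
    unfold N
    refine Finset.sum_congr rfl (fun h _ => ?_)
    by_cases h4 : h b - h a = h1 b - h1 a
    · simp only [if_pos h4, hc]
    · simp only [if_neg h4]
      simp
  have hkey' : ∀ (h1 : V → ℤ), h1 ∈ H → q h1 ≠ 0 → (∀ h, q h ≠ 0 → h b - h a ≤ h1 b - h1 a) →
      ∑ h ∈ H, (if h b - h a = h1 b - h1 a then c h else 0) ≠ 0 := by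
    intro h1 hh1 hq1 hle
    have h2 := hLY _ (face_mem b a (h1 a - h1 b) (fun h hh => by have := hle h hh; omega))
      ⟨h1, hh1, by simpa using hq1⟩ y hy hS
    intro h3
    apply h2
    rw [← h3]
    unfold N
    refine Finset.sum_congr rfl (fun h _ => ?_)
    by_cases h4 : h b - h a = h1 b - h1 a
    · have h5 : h a - h b = h1 a - h1 b := by omega
      simp only [if_pos h4, if_pos h5, hc]
    · have h5 : ¬ (h a - h b = h1 a - h1 b) := by omega
      simp only [if_neg h4, if_neg h5]
      simp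
  obtain ⟨hl, hlH, hlq, hlmin⟩ := exists_min hs hqne (fun h => h b - h a)
  obtain ⟨hu, huH, huq, humin⟩ := exists_min hs hqne (fun h => -(h b - h a))
  have hcz : ∀ h, q h = 0 → c h = 0 := fun h hh => by simp [hc, hh]
  have hlow : Pp.coeff ((hl b - hl a) + m).toNat ≠ 0 := by
    rw [hcoeff]
    have h1 : ∀ h ∈ H, c h * (if ((h b - h a) + (m : ℤ)).toNat ≤ ((hl b - hl a) + m).toNat then
      Rc.coeff (((hl b - hl a) + m).toNat - ((h b - h a) + (m : ℤ)).toNat) else 0) =
      (if h b - h a = hl b - hl a then c h else 0) * Rc.coeff 0 := by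
      intro h hh
      by_cases hq0 : q h = 0
      · rw [hcz h hq0]; simp
      · have h2 : hl b - hl a ≤ h b - h a := hlmin h hq0
        have h3 := hmk h hh
        have h4 := hmk hl hlH
        by_cases h5 : h b - h a = hl b - hl a
        · rw [if_pos h5, h5, if_pos le_rfl, Nat.sub_self]
        · rw [if_neg h5, if_neg (by omega), mul_zero, zero_mul]
    rw [Finset.sum_congr rfl h1, ← Finset.sum_mul]
    refine mul_ne_zero (hkey hl hlH hlq hlmin) ?_
    rw [hRc, coeff_map]
    exact (_root_.map_ne_zero _).2 P.coeff_zero_ne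
  have hhigh : Pp.coeff (((hu b - hu a) + m).toNat + P.R.natDegree) ≠ 0 := by
    rw [hcoeff]
    have h1 : ∀ h ∈ H, c h * (if ((h b - h a) + (m : ℤ)).toNat ≤
        ((hu b - hu a) + m).toNat + P.R.natDegree then
      Rc.coeff (((hu b - hu a) + m).toNat + P.R.natDegree - ((h b - h a) + (m : ℤ)).toNat) else 0) =
      (if h b - h a = hu b - hu a then c h else 0) * Rc.coeff P.R.natDegree := by
      intro h hh
      by_cases hq0 : q h = 0
      · rw [hcz h hq0]; simp
      · have h2 : -(hu b - hu a) ≤ -(h b - h a) := humin h hq0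
        have h3 := hmk h hh
        have h4 := hmk hu huH
        by_cases h5 : h b - h a = hu b - hu a
        · rw [if_pos h5, h5, if_pos (by omega), Nat.add_sub_cancel_left]
        · rw [if_neg h5, if_pos (by omega), zero_mul, hRc, coeff_map, coeff_eq_zero_of_natDegree_lt,
            map_zero, mul_zero]
          omega
    rw [Finset.sum_congr rfl h1, ← Finset.sum_mul]
    refine mul_ne_zero (hkey' hu huH huq (fun h hh => by have := humin h hh; omega)) ?_
    rw [hRc, coeff_map]
    exact (_root_.map_ne_zero _).2 P.coeff_deg_ne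
  rw [← htar]
  obtain ⟨h0, h0H, h0ne⟩ := hne
  have h0q := left_ne_zero_of_mul h0ne
  have h0w := PF.w_ne (right_ne_zero_of_mul h0ne)
  have h0l : hl b - hl a ≤ h0 b - h0 a := hlmin h0 h0q
  have h0u : -(hu b - hu a) ≤ -(h0 b - h0 a) := humin h0 h0q
  have e1 := hmk hl hlH
  have e2 := hmk hu huH
  exact coeff_ne_zero_of_between _ Pp.natDegree Pp le_rfl hroots _ _ _ (by omega) (by omega)
    hlow hhigh

end Pool.Agent.Helper909_ly
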